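import Pool.Agent.Lib.MP_5c318e_ag.Bo.FieldA

/-! The field `v` and the identity (*). -/

set_option autoImplicit false
set_option linter.unusedSectionVars false
set_option linter.unusedVariables false

namespace Pool.Agent.Lib.MP_5c318e_ag

open MeasureTheory Set Filter Topology Complex
open scoped ContDiff ComplexConjugate

noncomputable section

namespace RD

variable {ι : Type} [Fintype ι] [DecidableEq ι] {S : Type} [TopologicalSpace S] [MeasurableSpace S]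
  [BorelSpace S] [T2Space S] [SigmaCompactSpace S] {D : RD ι S}
  {Φ φ y P : S → ℝ} {κ : Type} [Fintype κ]

open Bo Bo3

namespace Bo

theorem gp_sum {α : Type} (T : Finset α) (u : S → ℝ) (x : S) (c : α → ℂ) (ξ : α → ι → ℂ)
    (ζ : ι → ℂ) : D.gp u x (∑ i ∈ T, c i • ξ i) ζ = ∑ i ∈ T, c i * D.gp u x (ξ i) ζ := by
  simp only [gp_mat, Matrix.mulVec_sum, dotProduct_sum, Matrix.mulVec_smul, dotProduct_smul,
    smul_eq_mul]

theorem gp_sum' {α : Type} (T : Finset α) {u : S → ℝ} (hu : D.Sm u) (x : S) (c : α → ℂ)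
    (ξ : α → ι → ℂ) (ζ : ι → ℂ) :
    D.gp u x ζ (∑ i ∈ T, c i • ξ i) = ∑ i ∈ T, conj (c i) * D.gp u x ζ (ξ i) := by
  rw [← RD.gp_conj hu, gp_sum, map_sum]
  simp only [map_mul, RD.gp_conj hu]

theorem vd_smul (c : S → ℂ) (W : S → ι → ℂ) (a : S → ℂ) (x : S) :
    D.vd (fun x => c x • W x) a x = c x * D.vd W a x := by
  simp only [vd, Pi.smul_apply, smul_eq_mul, mul_assoc, Finset.mul_sum]

theorem vd_sumv {α : Type} (T : Finset α) (c : α → S → ℂ) (W : α → S → ι → ℂ) (a : S → ℂ) (x : S) :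
    D.vd (fun x => ∑ i ∈ T, c i x • W i x) a x = ∑ i ∈ T, c i x * D.vd (W i) a x := by
  simp only [vd, Finset.sum_apply, Pi.smul_apply, smul_eq_mul, mul_assoc, Finset.mul_sum,
    Finset.sum_mul]
  exact Finset.sum_comm

theorem zero_of_int {g : S → ℝ} (hφ : D.Sm φ) (hg : Continuous g) (g0 : ∀ x, 0 ≤ g x)
    (hi : Integrable (fun x => g x * Real.exp (-φ x)) D.μ)
    (h : ∫ x, g x * Real.exp (-φ x) ∂D.μ = 0) (x : S) : g x = 0 := by
  have := (Continuous.ae_eq_iff_eq D.μ (hg.mul hφ.neg.rexp.cont) continuous_zero).1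
    ((integral_eq_zero_iff_of_nonneg (fun x => mul_nonneg (g0 x) (Real.exp_pos _).le) hi).1 h)
  exact (mul_eq_zero.1 (congrFun this x)).resolve_right (Real.exp_pos _).ne'

end Bo

variable (D) in
/-- `R` represents the form `gp P (U, ·)` on the tangent fields, at finite level -/
def Rz (Φ φ y P : S → ℝ) (U R : S → ι → ℂ) : Prop :=
  ∀ V, D.HH Φ φ V → ∫ x, D.levi y x (V x) * Real.exp (-φ x) ∂D.μ = 0 → ∀ ε : ℝ, 0 < ε →
    ∃ C : ℝ, 0 ≤ C ∧ ∀ (a : S → ℂ) (M : ℝ), D.Sm a → 0 ≤ M → (∀ x, ‖a x‖ ≤ M) →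
      D.Sq φ (D.vd V a) →
      ‖∫ x, a x * (D.gp P x (V x) (U x) - D.gp Φ x (V x) (R x)) * (Real.exp (-φ x) : ℂ) ∂D.μ‖ ≤
        ε * M + C * √(D.en φ (D.vd V a))

theorem exists_rz (hΦ : D.Pos Φ) (hc : D.Cut Φ) (hφ : D.Psh φ) (hy : D.Sm y) (y0 : ∀ x, 0 ≤ y x)
    {A : ℝ} (yA : ∀ x ξ, |D.levi y x ξ| ≤ A * D.levi Φ x ξ) (hP : D.Sm P)
    (PA : ∀ x ξ, |D.levi P x ξ| ≤ A * D.levi Φ x ξ) {U : S → ι → ℂ} (hU : D.HH Φ φ U) :
    ∃ R, D.HH Φ φ R ∧ ∫ x, D.levi y x (R x) * Real.exp (-φ x) ∂D.μ = 0 ∧ D.Rz Φ φ y P U R := by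
  obtain ⟨u, us, e⟩ := exists_dual hΦ hP hU.hol.smv
  obtain ⟨R, h1, h2, h3⟩ := star hΦ hc hφ hy y0 yA (dual_l2 hΦ.psh hφ.1 hP PA hU.l2 us e)
    (cl_of_dbar (RD.vd_sm hU.hol.smv hP.ofReal) fun x ξ => (e x ξ).trans (gp_hol hP hU.hol x ξ))
  refine ⟨R, h1, h2, fun V hV hQ ε ε0 => ?_⟩
  have e' : ∀ x, D.gp P x (V x) (U x) = D.gp Φ x (V x) (u x) := fun x => by
    rw [← RD.gp_conj hP, ← e, RD.gp_conj hΦ.1]
  simp only [e']
  exact h3 V hV hQ ε ε0

theorem rz_int (hΦ : D.Pos Φ) (hφ : D.Sm φ) {A : ℝ} (hP : D.Sm P)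
    (PA : ∀ x ξ, |D.levi P x ξ| ≤ A * D.levi Φ x ξ) {U R V : S → ι → ℂ} (hU : D.L2 Φ φ U)
    (hR : D.L2 Φ φ R) (hV : D.L2 Φ φ V) {a : S → ℂ} (ha : D.Sm a) {M : ℝ} (hM : ∀ x, ‖a x‖ ≤ M) :
    Integrable (fun x => a x * D.gp P x (V x) (U x) * (Real.exp (-φ x) : ℂ)) D.μ ∧
      Integrable (fun x => a x * D.gp Φ x (V x) (R x) * (Real.exp (-φ x) : ℂ)) D.μ := by
  simp only [mul_assoc]
  exact ⟨(bdd (int_gy hΦ.psh hφ hP PA hV hU) ha.cont hM).1,
    (bdd (L2.int_gp hΦ.psh hφ hV hR) ha.cont hM).1⟩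

theorem Rz.sum (hΦ : D.Pos Φ) (hφ : D.Sm φ) {A : ℝ} (hP : D.Sm P)
    (PA : ∀ x ξ, |D.levi P x ξ| ≤ A * D.levi Φ x ξ) {U R : κ → S → ι → ℂ}
    (hU : ∀ i, D.L2 Φ φ (U i)) (hR : ∀ i, D.L2 Φ φ (R i)) (h : ∀ i, D.Rz Φ φ y P (U i) (R i))
    (c : κ → ℂ) : D.Rz Φ φ y P (∑ i, c i • U i) (∑ i, c i • R i) := fun V hV hQ ε ε0 => by
  have n0 : 0 ≤ ∑ i, ‖c i‖ := Finset.sum_nonneg fun _ _ => norm_nonneg _
  choose C C0 hC using fun i => h i V hV hQ (ε / (∑ i, ‖c i‖ + 1)) (by positivity)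
  refine ⟨∑ i, ‖c i‖ * C i, Finset.sum_nonneg fun i _ => mul_nonneg (norm_nonneg _) (C0 i),
    fun a M ha M0 hM a2 => ?_⟩
  have e : ∀ x, a x * (D.gp P x (V x) ((∑ i, c i • U i) x) - D.gp Φ x (V x) ((∑ i, c i • R i) x)) *
      (Real.exp (-φ x) : ℂ) = ∑ i, conj (c i) *
        (a x * (D.gp P x (V x) (U i x) - D.gp Φ x (V x) (R i x)) * (Real.exp (-φ x) : ℂ)) :=
    fun x => by
      simp only [Finset.sum_apply, Pi.smul_apply]
      rw [gp_sum' _ hP, gp_sum' _ hΦ.1, ← Finset.sum_sub_distrib, Finset.mul_sum, Finset.sum_mul]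
      exact Finset.sum_congr rfl fun i _ => by ring
  simp only [e]
  rw [integral_finsetSum _ fun i _ => Integrable.const_mul (by
    simp only [mul_sub, sub_mul]
    exact (rz_int hΦ hφ hP PA (hU i) (hR i) hV.l2 ha hM).1.sub
      (rz_int hΦ hφ hP PA (hU i) (hR i) hV.l2 ha hM).2) _]
  refine (norm_sum_le _ _).trans (le_trans (Finset.sum_le_sum fun i _ => ?_)
    (b := ∑ i, ‖c i‖ * (ε / (∑ i, ‖c i‖ + 1) * M + C i * √(D.en φ (D.vd V a)))) ?_)
  · rw [integral_const_mul, norm_mul, norm_conj]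
    exact mul_le_mul_of_nonneg_left (hC i a M ha M0 hM a2) (norm_nonneg _)
  · simp only [mul_add, Finset.sum_add_distrib, ← mul_assoc, ← Finset.sum_mul]
    refine add_le_add (mul_le_mul_of_nonneg_right ?_ M0) le_rfl
    rw [← mul_div_assoc, div_le_iff₀ (by positivity)]
    nlinarith

/-- the exact identity for invariant multipliers -/
theorem Rz.exact (hΦ : D.Pos Φ) (hφ : D.Sm φ) {A : ℝ} (hP : D.Sm P)
    (PA : ∀ x ξ, |D.levi P x ξ| ≤ A * D.levi Φ x ξ) {U R V : S → ι → ℂ} (hU : D.L2 Φ φ U)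
    (hR : D.L2 Φ φ R) (h : D.Rz Φ φ y P U R) (hV : D.HH Φ φ V)
    (hQ : ∫ x, D.levi y x (V x) * Real.exp (-φ x) ∂D.μ = 0) {a : S → ℂ} (ha : D.Sm a) {M : ℝ}
    (M0 : 0 ≤ M) (hM : ∀ x, ‖a x‖ ≤ M) (h0 : ∀ x, D.vd V a x = 0) :
    ∫ x, a x * D.gp Φ x (V x) (R x) * (Real.exp (-φ x) : ℂ) ∂D.μ =
      ∫ x, a x * D.gp P x (V x) (U x) * (Real.exp (-φ x) : ℂ) ∂D.μ := by
  obtain ⟨i1, i2⟩ := rz_int hΦ hφ hP PA hU hR hV.l2 ha hM
  rw [eq_comm, ← sub_eq_zero, ← integral_sub i1 i2]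
  refine norm_le_zero_iff.1 (le_of_forall_pos_le_add fun ε ε0 => ?_)
  obtain ⟨C, -, hC⟩ := h V hV hQ (ε / (M + 1)) (by positivity)
  have := hC a M ha M0 hM (by simp [Sq, h0])
  simp only [en, h0, mul_sub, sub_mul, norm_zero, ne_eq, OfNat.ofNat_ne_zero, not_false_eq_true,
    zero_pow, zero_mul, integral_zero, Real.sqrt_zero, mul_zero, add_zero] at this
  refine this.trans ?_
  rw [zero_add, div_mul_eq_mul_div, div_le_iff₀ (by positivity)]
  nlinarith

theorem exists_field {α : S → ℝ} {t : S → ℂ} {s : κ → S → ℂ} {c A : ℝ}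
    (hΦ : D.Pos Φ) (hc : D.Cut Φ) (hs : ∀ i, D.Hol (s i)) (s0 : ∀ x, ∃ i, s i x ≠ 0) (c0 : 0 < c)
    (hy : D.Sm y) (y0 : ∀ x, 0 ≤ y x) (yA : ∀ x ξ, |D.levi y x ξ| ≤ A * D.levi Φ x ξ)
    (ht : D.Hol t) (hP : D.Sm P) (hα : Continuous α) (α0 : ∀ᵐ x ∂D.μ, 0 < α x)
    (Pα : ∀ x ξ ζ, D.gp P x ξ ζ =
      α x * (D.vd (fun _ => ξ) t x * conj (D.vd (fun _ => ζ) t x)))
    (PΦ : ∀ x ξ, D.levi P x ξ ≤ A * D.levi Φ x ξ)
    (αi : Integrable (fun x => α x * Real.exp (-((c - 1) * Real.log (∑ i, ‖s i x‖ ^ 2)))) D.μ)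
    (res : ∀ W, D.HH Φ (fun x => c * Real.log (∑ i, ‖s i x‖ ^ 2)) W →
      ∫ x, D.levi y x (W x) * Real.exp (-(c * Real.log (∑ i, ‖s i x‖ ^ 2))) ∂D.μ = 0 →
      ∃ a : κ → ℂ, ∀ x, D.vd W t x = ∑ i, a i * s i x)
    (lift : ∀ i, ∃ W, D.HH Φ (fun x => c * Real.log (∑ i, ‖s i x‖ ^ 2)) W ∧
      ∫ x, D.levi y x (W x) * Real.exp (-(c * Real.log (∑ i, ‖s i x‖ ^ 2))) ∂D.μ = 0 ∧
      ∀ x, D.vd W t x = s i x) :
    ∃ v : S → ι → ℂ, D.Hol v ∧ D.L2 Φ (fun x => (c - 1) * Real.log (∑ i, ‖s i x‖ ^ 2)) v ∧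
      D.Fl (fun x => (c - 1) * Real.log (∑ i, ‖s i x‖ ^ 2)) v ∧ (∀ x, D.vd v t x = 1) ∧
      (∀ i j x, s i x * D.vd v (s j) x = s j x * D.vd v (s i) x) ∧
      (∀ x, D.levi (fun x => Real.log (∑ i, ‖s i x‖ ^ 2)) x (v x) = 0) ∧
      (∀ i, D.HH Φ (fun x => c * Real.log (∑ i, ‖s i x‖ ^ 2)) fun x => s i x • v x) ∧
      Integrable (fun x => D.levi y x (v x) *
        Real.exp (-((c - 1) * Real.log (∑ i, ‖s i x‖ ^ 2)))) D.μ ∧
      ∫ x, D.levi y x (v x) * Real.exp (-((c - 1) * Real.log (∑ i, ‖s i x‖ ^ 2))) ∂D.μ = 0 ∧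
      ∃ E : ℝ, 0 ≤ E ∧ ∀ ε : ℝ, 0 < ε → ∃ C : ℝ, 0 ≤ C ∧ ∀ (f : S → ℝ) (M : ℝ), 0 ≤ M → D.Sm f →
        (∀ x, 0 ≤ f x ∧ f x ≤ M) →
        D.Sq (fun x => (c - 1) * Real.log (∑ i, ‖s i x‖ ^ 2)) (D.vr v f) →
        ∫ x, f x * D.levi Φ x (v x) * Real.exp (-((c - 1) * Real.log (∑ i, ‖s i x‖ ^ 2))) ∂D.μ ≤
          E * (∫ x, f x * α x * Real.exp (-((c - 1) * Real.log (∑ i, ‖s i x‖ ^ 2))) ∂D.μ) + ε * M +
            C * √(D.en (fun x => (c - 1) * Real.log (∑ i, ‖s i x‖ ^ 2)) (D.vr v f)) := by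
  classical
  have hL := lg_psh hs s0
  have B0 := sos_pos s0
  set L : S → ℝ := fun x => Real.log (∑ i, ‖s i x‖ ^ 2) with hL0
  have hφ : D.Psh fun x => c * L x := ⟨(sm_const c).mul hL.1, fun x ξ => by
    rw [levi_cmul c hL.1]
    exact mul_nonneg c0.le (hL.2 x ξ)⟩
  have hψ : D.Sm fun x => (c - 1) * L x := (sm_const _).mul hL.1
  have eψ : ∀ x, Real.exp (-((c - 1) * L x)) = (∑ i, ‖s i x‖ ^ 2) * Real.exp (-(c * L x)) :=
    fun x => by
      rw [show -((c - 1) * L x) = L x + -(c * L x) by ring, Real.exp_add, hL0, Real.exp_log (B0 x)]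
  have a0 : ∀ x, 0 ≤ α x := fun x => by
    by_contra h
    exact (isOpen_lt hα continuous_const).measure_ne_zero D.μ ⟨x, not_le.1 h⟩
      (measure_mono_null (fun z hz => not_lt.2 (le_of_lt hz)) (ae_iff.1 α0))
  have Pg : ∀ (V U : S → ι → ℂ) x, D.gp P x (V x) (U x) = α x * (D.vd V t x * conj (D.vd U t x)) :=
    fun V U x => Pα x _ _
  have PA : ∀ x ξ, |D.levi P x ξ| ≤ A * D.levi Φ x ξ := fun x ξ => by
    rw [abs_of_nonneg]
    · exact PΦ x ξ
    rw [← RD.gp_re hP, Pα, mul_conj', ← ofReal_pow, ← ofReal_mul, ofReal_re]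
    exact mul_nonneg (a0 x) (sq_nonneg _)
  have kerL : ∀ W, D.HH Φ (fun x => c * L x) W → ∀ x, D.levi L x (W x) = 0 := fun W h x => by
    have := h.ker x
    rw [levi_cmul c hL.1] at this
    exact (mul_eq_zero.1 this).resolve_left c0.ne'
  choose U U1 U2 U3 using lift
  choose R R1 R2 R3 using fun i => exists_rz hΦ hc hφ hy y0 yA hP PA (U1 i)
  have Tm : ∀ {W : κ → S → ι → ℂ}, (∀ i, W i ∈ tang hΦ hc hφ hy y0 yA) → ∀ a : κ → ℂ,
      ∑ i, a i • W i ∈ tang hΦ hc hφ hy y0 yA := fun h a =>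
    Submodule.sum_mem _ fun i _ => Submodule.smul_mem _ _ (h i)
  have RT := Tm (W := R) fun i => ⟨R1 i, R2 i⟩
  have UT := Tm (W := U) fun i => ⟨U1 i, U2 i⟩
  have RZ := Rz.sum hΦ hφ.1 hP PA (fun i => (U1 i).l2) (fun i => (R1 i).l2) R3
  have vs : ∀ (W : κ → S → ι → ℂ) (a : κ → ℂ) x,
      D.vd (∑ i, a i • W i) t x = ∑ i, a i * D.vd (W i) t x := fun W a x => by
    rw [← vd_sumv Finset.univ (fun i _ => a i) W t x]
    simp only [vd, Finset.sum_apply, Pi.smul_apply]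
  have one : ∀ (a : κ → ℂ) V, V ∈ tang hΦ hc hφ hy y0 yA →
      ∫ x, D.gp Φ x (V x) ((∑ i, a i • R i) x) * (Real.exp (-(c * L x)) : ℂ) ∂D.μ =
        ∫ x, D.gp P x (V x) ((∑ i, a i • U i) x) * (Real.exp (-(c * L x)) : ℂ) ∂D.μ :=
    fun a V hV => by
      simpa only [one_mul] using (RZ a).exact hΦ hφ.1 hP PA (UT a).1.l2 (RT a).1.l2 hV.1 hV.2
        (sm_const 1) zero_le_one (fun _ => by simp) (vd_const V 1)
  -- the residues of the Riesz vectors span
  have hd : ∀ i, ∃ d : κ → ℂ, ∀ x, D.vd (∑ j, d j • R j) t x = s i x := by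
    let σ : (κ → ℂ) →ₗ[ℂ] S → ℂ := Fintype.linearCombination ℂ s
    let T : (κ → ℂ) →ₗ[ℂ] S → ℂ := Fintype.linearCombination ℂ fun i => D.vd (R i) t
    have eσ : ∀ a x, σ a x = ∑ i, a i * s i x := fun a x => by
      simp [σ, Fintype.linearCombination_apply]
    have eT : ∀ a x, T a x = D.vd (∑ j, a j • R j) t x := fun a x => by
      simp [T, Fintype.linearCombination_apply, vs]
    have h1 : LinearMap.range T ≤ LinearMap.range σ := by
      rintro _ ⟨a, rfl⟩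
      obtain ⟨b, hb⟩ := res _ (RT a).1 (RT a).2
      exact ⟨b, funext fun x => by rw [eσ, eT, hb]⟩
    have h2 : LinearMap.ker T ≤ LinearMap.ker σ := fun a ha => by
      have z : ∀ x, D.vd (∑ j, a j • R j) t x = 0 := fun x => by
        rw [← eT, LinearMap.mem_ker.1 ha, Pi.zero_apply]
      have e1 := one a _ (RT a)
      simp only [Pg, z, zero_mul, mul_zero, integral_zero, RD.gp_self hΦ.1, ← ofReal_mul,
        integral_complex_ofReal, ofReal_eq_zero] at e1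
      have z1 : ∀ x, (∑ j, a j • R j) x = 0 := fun x => by_contra fun h => (hΦ.2 x _ h).ne'
        (zero_of_int hφ.1 (lv_sm hΦ.1 ((RT a).1.fl hc hΦ.psh.2).sm).cont (fun x => hΦ.psh.2 x _)
          (RT a).1.l2.2 e1 x)
      have e2 := one a _ (UT a)
      have g0 : ∀ x ξ, D.gp Φ x ξ 0 = 0 := fun x ξ => by simp [gp]
      simp only [z1, g0, zero_mul, integral_zero, RD.gp_self hP, ← ofReal_mul,
        integral_complex_ofReal] at e2
      have z2 := zero_of_int hφ.1 (lv_sm hP ((UT a).1.fl hc hΦ.psh.2).sm).cont (fun x => by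
        rw [← RD.gp_re hP, Pg, mul_conj', ← ofReal_pow, ← ofReal_mul, ofReal_re]
        exact mul_nonneg (a0 x) (sq_nonneg _)) (int_lv hφ.1 hP PA (UT a).1.l2)
        (ofReal_eq_zero.1 e2.symm)
      refine (Continuous.ae_eq_iff_eq D.μ ?_ continuous_zero).1 (α0.mono fun x hx => ?_)
      · rw [funext (eσ a)]
        exact continuous_finsetSum _ fun i _ => continuous_const.mul (hs i).cont
      · have := z2 x
        rw [← RD.gp_re hP, Pg, mul_conj', ← ofReal_pow, ← ofReal_mul, ofReal_re, vs] at this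
        simpa [hx.ne', eσ, U3] using this
    have h3 : LinearMap.range T = LinearMap.range σ := by
      refine Submodule.eq_of_le_of_finrank_le h1 ?_
      have := Submodule.finrank_mono h2
      have := LinearMap.finrank_range_add_finrank_ker T
      have := LinearMap.finrank_range_add_finrank_ker σ
      omega
    intro i
    obtain ⟨d, hd⟩ : s i ∈ LinearMap.range T := h3 ▸ ⟨Pi.single i 1, by simp [σ]⟩
    exact ⟨d, fun x => by rw [← eT, hd]⟩
  choose d hd using hd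
  set V : κ → S → ι → ℂ := fun i => ∑ j, d i j • R j with hV
  set X : κ → S → ι → ℂ := fun i => ∑ j, d i j • U j with hX
  have V1 : ∀ i, D.HH Φ (fun x => c * L x) (V i) := fun i => (RT _).1
  have V2 : ∀ i, ∫ x, D.levi y x (V i x) * Real.exp (-(c * L x)) ∂D.μ = 0 := fun i => (RT _).2
  have V3 : ∀ i, D.Rz Φ (fun x => c * L x) y P (X i) (V i) := fun i => RZ _
  have X1 : ∀ i, D.L2 Φ (fun x => c * L x) (X i) := fun i => (UT _).1.l2
  have Xt : ∀ i x, D.vd (X i) t x = ∑ j, d i j * s j x := fun i x => by simp only [hX, vs, U3]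
  have Vt : ∀ i x, D.vd (V i) t x = s i x := hd
  clear_value V X
  have Vh := fun i => hol_apply (V1 i).hol
  have Vs := fun i j => (Vh i j).sm
  have ker0 : ∀ b : κ → S → ℂ, (∀ k, D.Sm (b k)) → (∀ k x, ‖b k x‖ ≤ 2) →
      (∀ k l x, D.vd (V l) (b k) x = 0) → (∀ k l x, D.vd (V l) (fun z => conj (b k z)) x = 0) →
      (∀ x, ∑ k, b k x * s k x = 0) → ∀ x, ∑ k, b k x • V k x = 0 := fun b b1 b2 b3 b4 b5 x => by
    have sa := fun k l => (b1 k).mul (b1 l).conj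
    have ba : ∀ k l x, ‖b k x * conj (b l x)‖ ≤ 2 * 2 := fun k l x => by
      rw [norm_mul, norm_conj]
      exact mul_le_mul (b2 k x) (b2 l x) (norm_nonneg _) zero_le_two
    have ii := fun k l => rz_int hΦ hφ.1 hP PA (X1 l) (V1 l).l2 (V1 k).l2 (sa k l) (ba k l)
    have e : ∀ {Q : S → ℝ}, D.Sm Q → ∀ (Z : κ → S → ι → ℂ) x,
        D.gp Q x (∑ k, b k x • V k x) (∑ l, b l x • Z l x) * (Real.exp (-(c * L x)) : ℂ) =
        ∑ k, ∑ l, b k x * conj (b l x) * D.gp Q x (V k x) (Z l x) * (Real.exp (-(c * L x)) : ℂ) :=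
      fun {Q} hQ Z x => by
        rw [gp_sum]
        simp only [gp_sum' _ hQ, Finset.sum_mul, Finset.mul_sum, mul_assoc]
    have z : ∫ x, D.gp Φ x (∑ k, b k x • V k x) (∑ l, b l x • V l x) *
        (Real.exp (-(c * L x)) : ℂ) ∂D.μ = ∫ x, D.gp P x (∑ k, b k x • V k x) (∑ l, b l x • X l x) *
        (Real.exp (-(c * L x)) : ℂ) ∂D.μ := by
      simp only [e hΦ.1, e hP]
      rw [integral_finsetSum _ fun k _ => integrable_finsetSum _ fun l _ => (ii k l).2,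
        integral_finsetSum _ fun k _ => integrable_finsetSum _ fun l _ => (ii k l).1]
      refine Finset.sum_congr rfl fun k _ => ?_
      rw [integral_finsetSum _ fun l _ => (ii k l).2, integral_finsetSum _ fun l _ => (ii k l).1]
      refine Finset.sum_congr rfl fun l _ => (V3 l).exact hΦ hφ.1 hP PA (X1 l) (V1 l).l2 (V1 k)
        (V2 k) (sa k l) (by norm_num) (ba k l) fun x => ?_
      rw [vd_mul _ (b1 k) (b1 l).conj, b3, b4, zero_mul, mul_zero, add_zero]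
    have z0 : ∀ x, D.gp P x (∑ k, b k x • V k x) (∑ l, b l x • X l x) = 0 := fun x => by
      rw [Pg (fun x => ∑ k, b k x • V k x) fun x => ∑ l, b l x • X l x, vd_sumv]
      simp only [Vt, b5, zero_mul, mul_zero]
    have i0 : Integrable (fun x => D.gp Φ x (∑ k, b k x • V k x) (∑ l, b l x • V l x) *
        (Real.exp (-(c * L x)) : ℂ)) D.μ := by
      simp only [e hΦ.1]
      exact integrable_finsetSum _ fun k _ => integrable_finsetSum _ fun l _ => (ii k l).2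
    simp only [z0, zero_mul, integral_zero, RD.gp_self hΦ.1, ← ofReal_mul, integral_complex_ofReal,
      ofReal_eq_zero] at z i0
    exact by_contra fun h => (hΦ.2 x _ h).ne' (zero_of_int hφ.1 (lv_sm hΦ.1
      (W := fun x => ∑ k, b k x • V k x) fun j => by
        simp only [Finset.sum_apply, Pi.smul_apply, smul_eq_mul]
        exact sm_sum _ fun k _ => (b1 k).mul (Vs k j)).cont (fun x => hΦ.psh.2 x _) i0.re z x)
  set v : S → ι → ℂ := fun x => ∑ k, (conj (s k x) * ((∑ i, ‖s i x‖ ^ 2 : ℝ) : ℂ)⁻¹) • V k x with hv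
  have Vv : ∀ i x, V i x = s i x • v x := fun i x => by
    have ri := fun l x => rat_inv (Vh l) hs s0 (kerL _ (V1 l) x)
    have := ker0 (fun k x => (if k = i then 1 else 0) - rat s i k x)
      (fun k => (sm_const _).sub (rat_sm hs s0 i k)) (fun k x => (norm_sub_le _ _).trans (by
        have := rat_le s0 i k x
        split_ifs <;> simp <;> linarith))
      (fun k l x => by rw [vd_sub _ (sm_const _) (rat_sm hs s0 i k), vd_const, ri, sub_zero])
      (fun k l x => by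
        simp only [map_sub, rat_conj]
        rw [vd_sub _ (sm_const _) (rat_sm hs s0 k i), vd_const, ri, sub_zero])
      (fun x => by simp [sub_mul, rat_sum s0]) x
    simp only [sub_smul, Finset.sum_sub_distrib, ite_smul, one_smul, zero_smul, Finset.sum_ite_eq',
      Finset.mem_univ, if_true, sub_eq_zero] at this
    rw [this, hv, Finset.smul_sum]
    exact Finset.sum_congr rfl fun k _ => by rw [smul_smul, rat, mul_assoc]
  clear_value v
  have Vd : ∀ i a x, D.vd (V i) a x = s i x * D.vd v a x := fun i a x => by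
    rw [funext (Vv i), vd_smul]
  have vh : D.Hol v := fun x => by
    obtain ⟨i, hi⟩ := s0 x
    have h1 : s i (D.sec x (D.π x)) ≠ 0 := by rwa [D.sec_self]
    refine (((hs i x).inv h1).smul ((V1 i).hol x)).congr_of_eventuallyEq ?_
    filter_upwards [(hs i x).continuousAt.eventually_ne h1] with z hz
    simp only [Pi.smul_apply', Pi.inv_apply, Vv i, inv_smul_smul₀ hz]
  have vsm := fun j => (hol_apply vh j).sm
  have el : ∀ {Q : S → ℝ}, D.Sm Q → ∀ x, D.levi Q x (v x) * Real.exp (-((c - 1) * L x)) =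
      ∑ i, D.levi Q x (V i x) * Real.exp (-(c * L x)) := fun {Q} hQ x => by
    simp only [eψ, Vv, levi_smul hQ, ← Finset.sum_mul]
    ring
  have kv : ∀ x, D.levi L x (v x) = 0 := fun x => by
    obtain ⟨i, hi⟩ := s0 x
    have := kerL _ (V1 i) x
    rw [Vv, levi_smul hL.1] at this
    exact (mul_eq_zero.1 this).resolve_left (by positivity)
  have sv := fun x => lg_ker (hol_apply vh) hs s0 (kv x)
  have l2 : D.L2 Φ (fun x => (c - 1) * L x) v := ⟨vh.smv.cont.aestronglyMeasurable, by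
    simp only [el hΦ.1]
    exact integrable_finsetSum _ fun i _ => (V1 i).l2.2⟩
  have vc : ∀ (W : S → ι → ℂ) (r : ℝ) x, D.vd W (fun z => ((r * L z : ℝ) : ℂ)) x = r * D.vr W L x :=
    fun W r x => by
      rw [show D.vd W (fun z => ((r * L z : ℝ) : ℂ)) x = _ from vr_mul W (sm_const r) hL.1 x,
        vr_const, zero_mul, zero_add]
  have vH : D.HH Φ (fun x => (c - 1) * L x) v := by
    refine ⟨vh, l2, fun x => ?_, fun x => by rw [levi_cmul _ hL.1, kv, mul_zero]⟩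
    obtain ⟨i, hi⟩ := s0 x
    have h1 := (V1 i).div x
    have h2 : D.dv (V i) x = D.vd v (s i) x + s i x * D.dv v x := by
      simp only [dv, vd, Vv, Pi.smul_apply, smul_eq_mul, op_mul _ _ (hs i).sm (vsm _),
        Finset.sum_add_distrib, Finset.mul_sum, mul_comm (v x _)]
    rw [h2, Vd, vc, sv] at h1
    rw [vc]
    refine mul_left_cancel₀ hi ?_
    push_cast
    linear_combination h1
  refine ⟨v, vh, l2, vH.fl hc hΦ.psh.2, fun x => ?_, fun i j x => by rw [sv, sv]; ring, kv,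
    fun i => funext (Vv i) ▸ V1 i, int_lv hψ hy yA l2, ?_, ∑ i, ∑ j, ‖d i j‖,
    by positivity, fun ε ε0 => ?_⟩
  · obtain ⟨i, hi⟩ := s0 x
    exact mul_left_cancel₀ hi (by rw [← Vd, Vt, mul_one])
  · refine (integral_congr_ae (.of_forall (el hy))).trans ?_
    rw [integral_finsetSum _ fun i _ => int_lv hφ.1 hy yA (V1 i).l2]
    exact Finset.sum_eq_zero fun i _ => V2 i
  choose C C0 hC using fun i => V3 i (V i) (V1 i) (V2 i) (ε / (Fintype.card κ + 1)) (by positivity)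
  refine ⟨∑ i, C i, Finset.sum_nonneg fun i _ => C0 i, fun f M M0 hf fM f2 => ?_⟩
  have nf : ∀ x, ‖(f x : ℂ)‖ ≤ M := fun x => by
    rw [norm_real, Real.norm_of_nonneg (fM x).1]
    exact (fM x).2
  have fi : Integrable (fun x => f x * α x * Real.exp (-((c - 1) * L x))) D.μ := by
    simp only [mul_assoc]
    exact αi.bdd_mul hf.cont.aestronglyMeasurable (.of_forall fun x => by
      rw [Real.norm_of_nonneg (fM x).1]
      exact (fM x).2)
  have pw : ∀ i x, ‖D.vd (V i) (fun z => (f z : ℂ)) x‖ ^ 2 * Real.exp (-(c * L x)) ≤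
      ‖D.vr v f x‖ ^ 2 * Real.exp (-((c - 1) * L x)) := fun i x => by
    rw [Vd, eψ, norm_mul, mul_pow, ← mul_assoc, mul_comm (‖s i x‖ ^ 2), vr]
    exact mul_le_mul_of_nonneg_right (mul_le_mul_of_nonneg_left (Finset.single_le_sum
      (f := fun i => ‖s i x‖ ^ 2) (fun _ _ => sq_nonneg _) (Finset.mem_univ i)) (sq_nonneg _))
      (Real.exp_pos _).le
  have q : ∀ i, D.Sq (fun x => c * L x) (D.vd (V i) fun z => (f z : ℂ)) := fun i =>
    Integrable.mono' f2 ((Bo.vd_sm (Vs i) hf.ofReal).normSq.mul hφ.1.neg.rexp).cont.aestronglyMeasurable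
      (.of_forall fun x => by
        rw [Real.norm_of_nonneg (by positivity)]
        exact pw i x)
  have ii := fun i => rz_int hΦ hφ.1 hP PA (X1 i) (V1 i).l2 (V1 i).l2 hf.ofReal nf
  have ir : ∀ i, Integrable (fun x => f x * D.levi Φ x (V i x) * Real.exp (-(c * L x))) D.μ :=
    fun i => by
      have := (ii i).2
      simp only [RD.gp_self hΦ.1, ← ofReal_mul] at this
      exact this.re
  have each : ∀ i, ∫ x, f x * D.levi Φ x (V i x) * Real.exp (-(c * L x)) ∂D.μ ≤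
      (∑ j, ‖d i j‖) * (∫ x, f x * α x * Real.exp (-((c - 1) * L x)) ∂D.μ) +
        ε / (Fintype.card κ + 1) * M + C i * √(D.en (fun x => (c - 1) * L x) (D.vr v f)) :=
    fun i => by
      have h1 := hC i _ M hf.ofReal M0 nf (q i)
      simp only [mul_sub, sub_mul] at h1
      rw [integral_sub (ii i).1 (ii i).2] at h1
      have h2 : ‖∫ x, (f x : ℂ) * D.gp P x (V i x) (X i x) * (Real.exp (-(c * L x)) : ℂ) ∂D.μ‖ ≤
          (∑ j, ‖d i j‖) * ∫ x, f x * α x * Real.exp (-((c - 1) * L x)) ∂D.μ := by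
        rw [← integral_const_mul]
        refine norm_integral_le_of_norm_le (fi.const_mul _) (.of_forall fun x => ?_)
        have h3 : ‖s i x * conj (∑ j, d i j * s j x)‖ ≤ (∑ j, ‖d i j‖) * ∑ j, ‖s j x‖ ^ 2 := by
          rw [norm_mul, norm_conj, Finset.sum_mul]
          refine (mul_le_mul_of_nonneg_left (norm_sum_le _ _) (norm_nonneg _)).trans ?_
          rw [Finset.mul_sum]
          refine Finset.sum_le_sum fun j _ => ?_
          rw [norm_mul, mul_left_comm]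
          exact mul_le_mul_of_nonneg_left (mul_le_sos i j x) (norm_nonneg _)
        rw [nwt (fun x => c * L x), Pg, Vt, Xt, norm_mul, norm_mul, norm_real, norm_real,
          Real.norm_of_nonneg (fM x).1, Real.norm_of_nonneg (a0 x), eψ]
        have := mul_le_mul_of_nonneg_left h3
          (mul_nonneg (mul_nonneg (fM x).1 (a0 x)) (Real.exp_pos (-(c * L x))).le)
        linarith
      have h4 : C i * √(D.en (fun x => c * L x) (D.vd (V i) fun z => (f z : ℂ))) ≤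
          C i * √(D.en (fun x => (c - 1) * L x) (D.vr v f)) :=
        mul_le_mul_of_nonneg_left (Real.sqrt_le_sqrt (integral_mono (q i) f2 (pw i))) (C0 i)
      have h5 := norm_sub_norm_le
        (∫ x, (f x : ℂ) * D.gp Φ x (V i x) (V i x) * (Real.exp (-(c * L x)) : ℂ) ∂D.μ)
        (∫ x, (f x : ℂ) * D.gp P x (V i x) (X i x) * (Real.exp (-(c * L x)) : ℂ) ∂D.μ)
      rw [norm_sub_rev] at h5
      have h6 : ∫ x, f x * D.levi Φ x (V i x) * Real.exp (-(c * L x)) ∂D.μ ≤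
          ‖∫ x, (f x : ℂ) * D.gp Φ x (V i x) (V i x) * (Real.exp (-(c * L x)) : ℂ) ∂D.μ‖ := by
        simp only [RD.gp_self hΦ.1, ← ofReal_mul, integral_complex_ofReal, norm_real]
        exact le_abs_self _
      linarith
  have e1 : ∀ x, f x * D.levi Φ x (v x) * Real.exp (-((c - 1) * L x)) =
      ∑ i, f x * D.levi Φ x (V i x) * Real.exp (-(c * L x)) := fun x => by
    simp only [mul_assoc, el hΦ.1, Finset.mul_sum]
  refine (integral_congr_ae (.of_forall e1)).trans_le ?_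
  rw [integral_finsetSum _ fun i _ => ir i]
  refine (Finset.sum_le_sum fun i _ => each i).trans ?_
  simp only [Finset.sum_add_distrib, ← Finset.sum_mul, Finset.sum_const, Finset.card_univ,
    nsmul_eq_mul]
  refine add_le_add (add_le_add le_rfl (mul_le_mul_of_nonneg_right ?_ M0)) le_rfl
  rw [← mul_div_assoc, div_le_iff₀ (by positivity)]
  nlinarith

end RD

end

end Pool.Agent.Lib.MP_5c318e_ag
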