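import Pool.Agent.Lib.MP_5c318e_ag.Bo.T3
import Pool.Agent.Lib.MP_5c318e_ag.RD.HProj

/-! The Riesz vector of a closed form on the tangent fields. -/

set_option autoImplicit false
set_option linter.unusedSectionVars false

namespace Pool.Agent.Lib.MP_5c318e_ag

open MeasureTheory Set Complex Filter Topology
open scoped ComplexConjugate ContDiff

namespace RD

variable {ι : Type} [Fintype ι] [DecidableEq ι] {S : Type} [TopologicalSpace S]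
  [MeasurableSpace S] [BorelSpace S] [T2Space S] [SigmaCompactSpace S] {D : RD ι S}
  {Φ φ y : S → ℝ} {W X : S → ι → ℂ}

namespace Bo3

theorem gp_lin (hΦ : D.Sm Φ) (hy : D.Sm y) (c : ℝ) (x : S) (ξ ζ : ι → ℂ) :
    D.gp (fun z => c * Φ z + y z) x ξ ζ = c * D.gp Φ x ξ ζ + D.gp y x ξ ζ := by
  have e : ∀ k, (D.op I k fun z => ((c * Φ z + y z : ℝ) : ℂ)) =
      fun z => c * D.op I k (fun z => (Φ z : ℂ)) z + D.op I k (fun z => (y z : ℂ)) z := fun k => by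
    funext z
    simp only [ofReal_add, ofReal_mul]
    rw [op_add _ _ ((sm_const _).mul hΦ.ofReal) hy.ofReal, op_mul _ _ (sm_const _) hΦ.ofReal,
      op_const, zero_mul, zero_add]
  simp only [Bo.gp_eq, e, op_add _ _ ((sm_const _).mul (hΦ.ofReal.op I _)) (hy.ofReal.op I _),
    op_mul _ _ (sm_const _) (hΦ.ofReal.op I _), op_const, Finset.mul_sum, ← Finset.sum_add_distrib]
  exact Finset.sum_congr rfl fun j _ => Finset.sum_congr rfl fun k _ => by ring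

/-- a bounded Levi form has a bounded polarisation -/
theorem gp_bd (hΦ : D.Psh Φ) (hy : D.Sm y) {A : ℝ}
    (yA : ∀ x ξ, |D.levi y x ξ| ≤ A * D.levi Φ x ξ) (x : S) (ξ ζ : ι → ℂ) :
    ‖D.gp y x ξ ζ‖ ^ 2 ≤ 10 * A ^ 2 * D.levi Φ x ξ * D.levi Φ x ζ := by
  have a : ∀ x ξ, |D.levi y x ξ| ≤ |A| * D.levi Φ x ξ := fun x ξ =>
    (yA x ξ).trans (mul_le_mul_of_nonneg_right (le_abs_self A) (hΦ.2 x ξ))
  have l : ∀ x ξ, D.levi (fun z => |A| * Φ z + y z) x ξ = |A| * D.levi Φ x ξ + D.levi y x ξ :=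
    fun x ξ => by rw [levi_add ((sm_const _).mul hΦ.1) hy, levi_cmul _ hΦ.1]
  have p : D.Psh fun z => |A| * Φ z + y z := ⟨((sm_const _).mul hΦ.1).add hy, fun x ξ => by
    rw [l]
    linarith [(abs_le.1 (a x ξ)).1]⟩
  have u : ∀ ξ, D.levi (fun z => |A| * Φ z + y z) x ξ ≤ 2 * |A| * D.levi Φ x ξ := fun ξ => by
    rw [l]
    linarith [(abs_le.1 (a x ξ)).2]
  have h1 := (gp_sq_le p x ξ ζ).trans (mul_le_mul (u ξ) (u ζ) (p.2 _ _)
    (mul_nonneg (by positivity) (hΦ.2 _ _)))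
  have h2 := mul_le_mul_of_nonneg_left (gp_sq_le hΦ x ξ ζ) (sq_nonneg A)
  have h3 : ‖D.gp y x ξ ζ‖ ≤ ‖D.gp (fun z => |A| * Φ z + y z) x ξ ζ‖ + |A| * ‖D.gp Φ x ξ ζ‖ := by
    rw [show D.gp y x ξ ζ = D.gp (fun z => |A| * Φ z + y z) x ξ ζ - (|A| : ℝ) * D.gp Φ x ξ ζ by
      rw [gp_lin hΦ.1 hy]; ring]
    refine (norm_sub_le _ _).trans_eq ?_
    rw [norm_mul, norm_real, Real.norm_eq_abs, abs_abs]
  have h4 := pow_le_pow_left₀ (norm_nonneg _) h3 2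
  rw [← sq_abs A] at h2 ⊢
  nlinarith [sq_nonneg (‖D.gp (fun z => |A| * Φ z + y z) x ξ ζ‖ - |A| * ‖D.gp Φ x ξ ζ‖)]

theorem int_lv (hφ : D.Sm φ) (hy : D.Sm y) {A : ℝ}
    (yA : ∀ x ξ, |D.levi y x ξ| ≤ A * D.levi Φ x ξ) (h : D.L2 Φ φ W) :
    Integrable (fun x => D.levi y x (W x) * Real.exp (-φ x)) D.μ :=
  (h.2.const_mul A).mono' ((aesm_levi hy h.1).mul hφ.neg.rexp.cont.aestronglyMeasurable)
    (.of_forall fun x => by
      rw [norm_mul, Real.norm_of_nonneg (Real.exp_pos _).le, ← mul_assoc]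
      exact mul_le_mul_of_nonneg_right (yA x _) (Real.exp_pos _).le)

theorem int_gy (hΦ : D.Psh Φ) (hφ : D.Sm φ) (hy : D.Sm y) {A : ℝ}
    (yA : ∀ x ξ, |D.levi y x ξ| ≤ A * D.levi Φ x ξ) (h : D.L2 Φ φ W) (h' : D.L2 Φ φ X) :
    Integrable (fun x => D.gp y x (W x) (X x) * (Real.exp (-φ x) : ℂ)) D.μ :=
  (cs (F := fun x => D.gp y x (W x) (X x) * (Real.exp (-φ x) : ℂ))
    (h.2.const_mul (10 * A ^ 2)) h'.2
    (fun x => mul_nonneg (by positivity) (mul_nonneg (hΦ.2 _ _) (Real.exp_pos _).le))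
    (fun x => mul_nonneg (hΦ.2 _ _) (Real.exp_pos _).le)
    ((aesm_gp hy h.1 h'.1).mul hφ.wt.cont.aestronglyMeasurable) fun x => by
      rw [nwt, mul_pow]
      refine (mul_le_mul_of_nonneg_right (gp_bd hΦ hy yA x _ _) (sq_nonneg _)).trans_eq ?_
      ring).1

/-- the field dual to `levi y (X, ·)` -/
theorem exists_dual (hΦ : D.Pos Φ) (hy : D.Sm y) (hX : D.Sm X) : ∃ ρ : S → ι → ℂ, D.Sm ρ ∧
    ∀ x ξ, D.gp Φ x (ρ x) ξ = D.gp y x (X x) ξ := by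
  obtain ⟨ρ, h1, h2, -⟩ := exists_sharp hΦ (fl_sm hy hX)
  exact ⟨ρ, h1, fun x ξ => (h2 x ξ).trans (gp_fl X x ξ).symm⟩

theorem dual_l2 (hΦ : D.Psh Φ) (hφ : D.Sm φ) (hy : D.Sm y) {A : ℝ}
    (yA : ∀ x ξ, |D.levi y x ξ| ≤ A * D.levi Φ x ξ) (h : D.L2 Φ φ X) {ρ : S → ι → ℂ}
    (hρ : D.Sm ρ) (e : ∀ x ξ, D.gp Φ x (ρ x) ξ = D.gp y x (X x) ξ) : D.L2 Φ φ ρ := by
  have m := hρ.cont.aestronglyMeasurable (μ := D.μ)
  refine ⟨m, (h.2.const_mul (10 * A ^ 2)).mono'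
    ((aesm_levi hΦ.1 m).mul hφ.neg.rexp.cont.aestronglyMeasurable) (.of_forall fun x => ?_)⟩
  rw [Real.norm_of_nonneg (mul_nonneg (hΦ.2 _ _) (Real.exp_pos _).le), ← mul_assoc]
  refine mul_le_mul_of_nonneg_right ?_ (Real.exp_pos _).le
  have := gp_bd hΦ hy yA x (X x) (ρ x)
  rw [← e, gp_self hΦ.1, norm_real, Real.norm_eq_abs, sq_abs, sq] at this
  rcases (hΦ.2 x (ρ x)).eq_or_lt with h0 | h0
  · exact h0 ▸ mul_nonneg (by positivity) (hΦ.2 _ _)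
  · exact le_of_mul_le_mul_right this h0

end Bo3

open Bo3

/-- the Riesz vector `W` of the closed form `g (u, ·)` on the tangent fields, and the identity (*) -/
theorem star (hΦ : D.Pos Φ) (hc : D.Cut Φ) (hφ : D.Psh φ) (hy : D.Sm y) (y0 : ∀ x, 0 ≤ y x) {A : ℝ}
    (yA : ∀ x ξ, |D.levi y x ξ| ≤ A * D.levi Φ x ξ) {u : S → ι → ℂ} (hu : D.L2 Φ φ u)
    (hl : D.Cl (D.fl Φ u)) :
    ∃ W, D.HH Φ φ W ∧ ∫ x, D.levi y x (W x) * Real.exp (-φ x) ∂D.μ = 0 ∧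
      ∀ V, D.HH Φ φ V → ∫ x, D.levi y x (V x) * Real.exp (-φ x) ∂D.μ = 0 → ∀ ε : ℝ, 0 < ε →
        ∃ C : ℝ, 0 ≤ C ∧ ∀ (a : S → ℂ) (M : ℝ), D.Sm a → 0 ≤ M → (∀ x, ‖a x‖ ≤ M) →
          D.Sq φ (D.vd V a) →
          ‖∫ x, a x * (D.gp Φ x (V x) (u x) - D.gp Φ x (V x) (W x)) * (Real.exp (-φ x) : ℂ) ∂D.μ‖ ≤
            ε * M + C * √(D.en φ (D.vd V a)) := by
  have ps := hΦ.psh
  let R : Submodule ℂ (S → ι → ℂ) :=
    { carrier := {ρ | D.Sm ρ ∧ ∃ X, D.HH Φ φ X ∧ ∀ x ξ, D.gp Φ x (ρ x) ξ = D.gp y x (X x) ξ}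
      add_mem' := by
        rintro ρ ρ' ⟨s, X, hX, e⟩ ⟨s', X', hX', e'⟩
        exact ⟨s.add s', X + X', hX.add hΦ hφ hX', fun x ξ => by
          simp only [Pi.add_apply, gp_add, e, e']⟩
      zero_mem' := ⟨sm_const _, 0, HH.zero hΦ hφ.1, fun x ξ => by simp [gp]⟩
      smul_mem' := by
        rintro c ρ ⟨s, X, hX, e⟩
        exact ⟨fun x => (s x).const_smul c, c • X, hX.smul hΦ hφ.1 c, fun x ξ => by
          simp only [Pi.smul_apply, gp_smul, e]⟩ }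
  obtain ⟨W, hW, o, ap⟩ := proj_sub hΦ hc hφ R (by
    rintro ρ ⟨s, X, hX, e⟩
    exact ⟨dual_l2 ps hφ.1 hy yA hX.l2 s e, cl_of_dbar (vd_sm hX.hol.smv hy.ofReal)
      fun x ξ => (e x ξ).trans (gp_hol hy hX.hol x ξ)⟩) hu hl
  refine ⟨W, hW, ?_, fun V hV hQ ε ε0 => ?_⟩
  · obtain ⟨ρ, s, e⟩ := exists_dual hΦ hy hW.hol.smv
    have := o ρ ⟨s, W, hW, e⟩
    simp only [e, gp_self hy, ← ofReal_mul, integral_complex_ofReal] at this
    exact_mod_cast this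
  set N := √(∫ x, D.levi Φ x (V x) * Real.exp (-φ x) ∂D.μ) with hN
  have N0 : 0 ≤ N := Real.sqrt_nonneg _
  obtain ⟨b, v, ρ, bs, bc, vs, vb, ⟨ρs, X, hX, e⟩, r2, rδ⟩ := ap ((ε / 2 / (N + 1)) ^ 2)
    (by positivity)
  have fV := hV.fl hc ps.2
  have gi := int_gy ps hφ.1 hy yA hV.l2 hX.l2
  obtain ⟨C, C0, hC⟩ := fV.t3 hφ.1 (hX.fl hc ps.2) hy y0 (int_lv hφ.1 hy yA hV.l2)
    (int_lv hφ.1 hy yA hX.l2) gi hQ (half_pos ε0)
  refine ⟨C + √(D.en φ fun x => conj (b x)), by positivity, fun a M ha M0 hM a2 => ?_⟩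
  have w0 : ∀ (Z : S → ι → ℂ) x, 0 ≤ D.levi Φ x (Z x) * Real.exp (-φ x) := fun Z x =>
    mul_nonneg (ps.2 _ _) (Real.exp_pos _).le
  have s1 := cs (F := fun x => a x * D.gp Φ x (V x) (u x - W x - v x - ρ x) *
    (Real.exp (-φ x) : ℂ)) (hV.l2.2.const_mul (M ^ 2)) r2.2
    (fun x => mul_nonneg (sq_nonneg _) (w0 V x)) (w0 fun x => u x - W x - v x - ρ x)
    ((ha.cont.aestronglyMeasurable.mul (aesm_gp ps.1 hV.l2.1 r2.1)).mul
      hφ.1.wt.cont.aestronglyMeasurable) fun x => by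
      rw [nwt, norm_mul, mul_pow, mul_pow]
      refine (mul_le_mul_of_nonneg_right (mul_le_mul (pow_le_pow_left₀ (norm_nonneg _) (hM x) 2)
        (gp_sq_le ps x _ _) (sq_nonneg _) (sq_nonneg _)) (sq_nonneg _)).trans_eq ?_
      ring
  have n1 : ‖∫ x, a x * D.gp Φ x (V x) (u x - W x - v x - ρ x) * (Real.exp (-φ x) : ℂ) ∂D.μ‖ ≤
      ε / 2 * M := by
    refine s1.2.trans ?_
    rw [integral_const_mul, Real.sqrt_mul (sq_nonneg _), Real.sqrt_sq M0, ← hN, mul_assoc,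
      mul_comm (ε / 2)]
    refine mul_le_mul_of_nonneg_left ((mul_le_mul_of_nonneg_left
      (Real.sqrt_le_iff.2 ⟨by positivity, rδ⟩) N0).trans ?_) M0
    rw [← mul_div_assoc, div_le_iff₀ (by positivity)]
    nlinarith
  have cc := supp_conj bc
  have s2 := cs_sq hφ.1 (Bo.vd_sm fV.sm ha).cont.aestronglyMeasurable
    bs.conj.cont.aestronglyMeasurable a2 ((bs.conj.normSq.mul hφ.1.neg.rexp).int
      (cc.mono fun x hx h0 => hx (by simp [h0])))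
  have i2 : Integrable (fun x => a x * D.vd V (fun z => conj (b z)) x * (Real.exp (-φ x) : ℂ))
      D.μ := ((ha.mul (Bo.vd_sm fV.sm bs.conj)).mul hφ.1.wt).int (Bo.vd_supp V cc).mul_left.mul_right
  have z := Bo.int_vd hφ.1 fV.sm hV.div (ha.mul bs.conj) cc.mul_left
  simp only [Bo.vd_mul V ha bs.conj, add_mul] at z
  rw [integral_add s2.1 i2] at z
  have i3 : Integrable (fun x => a x * D.gp y x (V x) (X x) * (Real.exp (-φ x) : ℂ)) D.μ := by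
    simp only [mul_assoc]
    exact (bdd gi ha.cont hM).1
  have j : Integrable (fun x => a x * D.gp Φ x (V x) (u x - W x - v x - ρ x) *
      (Real.exp (-φ x) : ℂ) + a x * D.gp y x (V x) (X x) * (Real.exp (-φ x) : ℂ)) D.μ := s1.1.add i3
  have e2 : ∀ x, a x * (D.gp Φ x (V x) (u x) - D.gp Φ x (V x) (W x)) * (Real.exp (-φ x) : ℂ) =
      a x * D.gp Φ x (V x) (u x - W x - v x - ρ x) * (Real.exp (-φ x) : ℂ) +
        a x * D.gp y x (V x) (X x) * (Real.exp (-φ x) : ℂ) +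
        a x * D.vd V (fun z => conj (b z)) x * (Real.exp (-φ x) : ℂ) := fun x => by
    rw [Bo.vd_conj V bs, ← vb, ← gp_conj hy, ← e, ← gp_conj ps.1 x (u x - W x - v x - ρ x),
      ← gp_conj ps.1 x (u x), ← gp_conj ps.1 x (W x)]
    simp only [gp_sub, map_sub]
    ring
  simp only [e2]
  rw [integral_add j i2, integral_add s1.1 i3, eq_neg_of_add_eq_zero_right z]
  refine (norm_add_le _ _).trans ((add_le_add ((norm_add_le _ _).trans
    (add_le_add n1 (hC a M ha M0 hM a2))) ((norm_neg _).trans_le s2.2)).trans_eq ?_)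
  ring

end RD

end Pool.Agent.Lib.MP_5c318e_ag
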