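import Pool.Agent.Lib.MP_5c318e_ag.Bo.TC

/-! The logarithm of a sum of squares along holomorphic fields; tangent fields. -/

set_option autoImplicit false
set_option linter.unusedSectionVars false

namespace Pool.Agent.Lib.MP_5c318e_ag

open MeasureTheory Set Filter Topology Complex
open scoped ContDiff ComplexConjugate

noncomputable section

namespace RD

variable {ι : Type} [Fintype ι] [DecidableEq ι] {S : Type} [TopologicalSpace S] [MeasurableSpace S]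
  [BorelSpace S] [T2Space S] [SigmaCompactSpace S] {D : RD ι S}
  {Φ φ y : S → ℝ} {W X : S → ι → ℂ} {κ : Type} [Fintype κ] {s : κ → S → ℂ}

namespace Bo

theorem sos_pos (s0 : ∀ x, ∃ i, s i x ≠ 0) (x : S) : 0 < ∑ i, ‖s i x‖ ^ 2 := by
  obtain ⟨i, hi⟩ := s0 x
  exact Finset.sum_pos' (fun _ _ => sq_nonneg _) ⟨i, Finset.mem_univ _, by positivity⟩

theorem sos_sm (hs : ∀ i, D.Hol (s i)) : D.Sm fun x => ∑ i, ‖s i x‖ ^ 2 :=
  sm_sum _ fun i _ => (hs i).sm.normSq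

theorem lg_sm (hs : ∀ i, D.Hol (s i)) (s0 : ∀ x, ∃ i, s i x ≠ 0) :
    D.Sm fun x => Real.log (∑ i, ‖s i x‖ ^ 2) :=
  (sos_sm hs).comp_at fun x => Real.contDiffAt_log.2 (sos_pos s0 x).ne'

theorem sos_eq (x : S) : ((∑ i, ‖s i x‖ ^ 2 : ℝ) : ℂ) = ∑ i, s i x * conj (s i x) := by
  simp only [mul_conj', ofReal_sum, ofReal_pow]

theorem vd_sum {α : Type} (T : Finset α) (W : S → ι → ℂ) {a : α → S → ℂ} (ha : ∀ i, D.Sm (a i))
    (x : S) : D.vd W (fun z => ∑ i ∈ T, a i z) x = ∑ i ∈ T, D.vd W (a i) x := by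
  simp only [vd, op_sum _ _ T fun i _ => ha i, Finset.mul_sum]
  exact Finset.sum_comm

theorem vr_sos (W : S → ι → ℂ) (hs : ∀ i, D.Hol (s i)) (x : S) :
    D.vr W (fun x => ∑ i, ‖s i x‖ ^ 2) x = ∑ i, D.vd W (s i) x * conj (s i x) := by
  simp only [vr, sos_eq]
  rw [vd_sum _ W fun i => (hs i).sm.mul (hs i).sm.conj]
  refine Finset.sum_congr rfl fun i _ => ?_
  rw [vd_mul W (hs i).sm (hs i).sm.conj, vd_conj_hol W (hs i), mul_zero, add_zero]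

theorem vd_bar (hW : ∀ j, D.Hol fun x => W x j) {a : S → ℂ} (ha : D.Hol a) (X : S → ι → ℂ) (x : S) :
    D.vd X (fun z => conj (D.vd W a z)) x = 0 := by
  rw [vd_conj X (vd_sm (fun j => (hW j).sm) ha.sm), dbar_coord, map_eq_zero]
  refine Finset.sum_eq_zero fun k _ => ?_
  have e : D.op I k (D.vd W a) x = ∑ j, D.op I k (fun z => W z j * D.op (-I) j a z) x :=
    op_sum I k _ (fun j _ => (hW j).sm.mul (ha.sm.op _ j)) x
  rw [e, Finset.sum_eq_zero, zero_mul]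
  intro j _
  rw [op_mul I k (hW j).sm (ha.sm.op _ j), hol_op (hW j), op_comm I k (-I) j ha.sm,
    show D.op I k a = fun _ => 0 from funext (hol_op ha k), op_const]
  simp

theorem levi_sos (hW : ∀ j, D.Hol fun x => W x j) (hs : ∀ i, D.Hol (s i)) (x : S) :
    D.levi (fun x => ∑ i, ‖s i x‖ ^ 2) x (W x) = ∑ i, ‖D.vd W (s i) x‖ ^ 2 := by
  have sm := fun i => vd_sm (fun j => (hW j).sm) (hs i).sm
  refine ofReal_injective ?_
  rw [← gp_self (sos_sm hs), ← vd_gp W hW (sos_sm hs)]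
  simp only [vr_sos W hs, map_sum, map_mul, conj_conj]
  rw [vd_sum _ W fun i => (sm i).conj.mul (hs i).sm, ofReal_sum]
  refine Finset.sum_congr rfl fun i _ => ?_
  rw [vd_mul W (sm i).conj (hs i).sm, vd_bar hW (hs i), zero_mul, zero_add, conj_mul', ofReal_pow]

theorem vr_lg (W : S → ι → ℂ) (hs : ∀ i, D.Hol (s i)) (s0 : ∀ x, ∃ i, s i x ≠ 0) (x : S) :
    D.vr W (fun x => ∑ i, ‖s i x‖ ^ 2) x =
      (∑ i, ‖s i x‖ ^ 2 : ℝ) * D.vr W (fun x => Real.log (∑ i, ‖s i x‖ ^ 2)) x := by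
  have := vr_comp W Real.contDiff_exp (lg_sm hs s0) x
  simpa only [Real.deriv_exp, Real.exp_log (sos_pos s0 _)] using this

theorem lg_id (hW : ∀ j, D.Hol fun x => W x j) (hs : ∀ i, D.Hol (s i)) (s0 : ∀ x, ∃ i, s i x ≠ 0)
    (x : S) : (∑ i, ‖s i x‖ ^ 2) * D.levi (fun x => Real.log (∑ i, ‖s i x‖ ^ 2)) x (W x) =
      ∑ i, ‖D.vd W (s i) x - D.vr W (fun x => Real.log (∑ i, ‖s i x‖ ^ 2)) x * s i x‖ ^ 2 := by
  have h1 := levi_vr W Real.contDiff_exp (lg_sm hs s0) x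
  simp only [Real.deriv_exp, Real.exp_log (sos_pos s0 _)] at h1
  rw [levi_sos hW hs] at h1
  have h2 := (vr_sos W hs x).symm.trans (vr_lg W hs s0 x)
  set l := D.vr W (fun x => Real.log (∑ i, ‖s i x‖ ^ 2)) x
  have e : ∀ i, ‖D.vd W (s i) x - l * s i x‖ ^ 2 = ‖D.vd W (s i) x‖ ^ 2 + ‖l‖ ^ 2 * ‖s i x‖ ^ 2 -
      2 * (conj l * (D.vd W (s i) x * conj (s i x))).re := fun i => by
    rw [← mul_pow, ← norm_mul]
    simp only [← normSq_eq_norm_sq, normSq_sub, map_mul, mul_left_comm (D.vd W (s i) x)]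
  simp only [e, Finset.sum_sub_distrib, Finset.sum_add_distrib, ← Finset.mul_sum, ← re_sum, h2]
  rw [h1, mul_left_comm, conj_mul', ← ofReal_pow, ← ofReal_mul, ofReal_re]
  ring

theorem lg_psh (hs : ∀ i, D.Hol (s i)) (s0 : ∀ x, ∃ i, s i x ≠ 0) :
    D.Psh fun x => Real.log (∑ i, ‖s i x‖ ^ 2) :=
  ⟨lg_sm hs s0, fun x ξ => nonneg_of_mul_nonneg_right
    ((lg_id (W := fun _ => ξ) (fun _ => hol_const _) hs s0 x).symm ▸
      Finset.sum_nonneg fun _ _ => sq_nonneg _) (sos_pos s0 x)⟩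

theorem lg_ker (hW : ∀ j, D.Hol fun x => W x j) (hs : ∀ i, D.Hol (s i)) (s0 : ∀ x, ∃ i, s i x ≠ 0)
    {x : S} (h : D.levi (fun x => Real.log (∑ i, ‖s i x‖ ^ 2)) x (W x) = 0) (i : κ) :
    D.vd W (s i) x = D.vr W (fun x => Real.log (∑ i, ‖s i x‖ ^ 2)) x * s i x := by
  have := lg_id hW hs s0 x
  rw [h, mul_zero, eq_comm, Finset.sum_eq_zero_iff_of_nonneg fun _ _ => sq_nonneg _] at this
  simpa [sub_eq_zero] using this i (Finset.mem_univ i)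

/-- the ratios `s_i conj s_k / B` -/
def rat (s : κ → S → ℂ) (i k : κ) (x : S) : ℂ :=
  s i x * conj (s k x) * ((∑ i, ‖s i x‖ ^ 2 : ℝ) : ℂ)⁻¹

theorem inv_sm (hs : ∀ i, D.Hol (s i)) (s0 : ∀ x, ∃ i, s i x ≠ 0) :
    D.Sm fun x => ((∑ i, ‖s i x‖ ^ 2 : ℝ) : ℂ)⁻¹ :=
  (sos_sm hs).ofReal.comp_at fun x => contDiffAt_inv ℝ (ofReal_ne_zero.2 (sos_pos s0 x).ne')

theorem rat_sm (hs : ∀ i, D.Hol (s i)) (s0 : ∀ x, ∃ i, s i x ≠ 0) (i k : κ) : D.Sm (rat s i k) :=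
  ((hs i).sm.mul (hs k).sm.conj).mul (inv_sm hs s0)

theorem rat_conj (i k : κ) (x : S) : conj (rat s i k x) = rat s k i x := by
  simp only [rat, map_mul, conj_conj, map_inv₀, conj_ofReal, mul_comm (s i x)]

theorem mul_le_sos (i k : κ) (x : S) : ‖s i x‖ * ‖s k x‖ ≤ ∑ i, ‖s i x‖ ^ 2 := by
  have h := fun j => Finset.single_le_sum (f := fun i => ‖s i x‖ ^ 2) (fun _ _ => sq_nonneg _)
    (Finset.mem_univ j)
  nlinarith [h i, h k, sq_nonneg (‖s i x‖ - ‖s k x‖)]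

theorem rat_le (s0 : ∀ x, ∃ i, s i x ≠ 0) (i k : κ) (x : S) : ‖rat s i k x‖ ≤ 1 := by
  rw [rat, norm_mul, norm_mul, norm_conj, norm_inv, norm_real,
    Real.norm_of_nonneg (sos_pos s0 x).le, ← div_eq_mul_inv, div_le_one (sos_pos s0 x)]
  exact mul_le_sos i k x

theorem rat_sum (s0 : ∀ x, ∃ i, s i x ≠ 0) (i : κ) (x : S) : ∑ k, rat s i k x * s k x = s i x := by
  have h := ofReal_ne_zero.2 (sos_pos s0 x).ne'
  calc _ = s i x * ((∑ i, ‖s i x‖ ^ 2 : ℝ) : ℂ)⁻¹ * ∑ k, s k x * conj (s k x) := by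
        rw [Finset.mul_sum]
        exact Finset.sum_congr rfl fun k _ => by rw [rat]; ring
    _ = _ := by rw [← sos_eq, inv_mul_cancel_right₀ h]

theorem rat_inv (hW : ∀ j, D.Hol fun x => W x j) (hs : ∀ i, D.Hol (s i)) (s0 : ∀ x, ∃ i, s i x ≠ 0)
    {x : S} (h : D.levi (fun x => Real.log (∑ i, ‖s i x‖ ^ 2)) x (W x) = 0) (i k : κ) :
    D.vd W (rat s i k) x = 0 := by
  have h0 := fun z => ofReal_ne_zero.2 (sos_pos s0 z).ne'
  have e := vd_mul W (rat_sm hs s0 i k) (sos_sm hs).ofReal x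
  simp only [rat, inv_mul_cancel_right₀ (h0 _)] at e
  rw [vd_mul W (hs i).sm (hs k).sm.conj, vd_conj_hol W (hs k), lg_ker hW hs s0 h,
    show D.vd W (fun z => ((∑ i, ‖s i z‖ ^ 2 : ℝ) : ℂ)) x = _ from vr_lg W hs s0 x,
    ← mul_assoc, inv_mul_cancel_right₀ (h0 x)] at e
  refine (mul_eq_zero.1 ?_).resolve_right (h0 x)
  linear_combination -e

end Bo

open Bo Bo3

/-- a field with vanishing tangency form is in the radical -/
theorem HH.rad (hΦ : D.Pos Φ) (hc : D.Cut Φ) (hφ : D.Sm φ) (hy : D.Sm y) (y0 : ∀ x, 0 ≤ y x) {A : ℝ}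
    (yA : ∀ x ξ, |D.levi y x ξ| ≤ A * D.levi Φ x ξ) (h : D.HH Φ φ W)
    (hQ : ∫ x, D.levi y x (W x) * Real.exp (-φ x) ∂D.μ = 0) (h' : D.HH Φ φ X) :
    ∫ x, D.gp y x (W x) (X x) * (Real.exp (-φ x) : ℂ) ∂D.μ = 0 := by
  refine norm_le_zero_iff.1 (le_of_forall_pos_le_add fun ε ε0 => ?_)
  obtain ⟨C, -, hC⟩ := (h.fl hc hΦ.psh.2).t3 hφ (h'.fl hc hΦ.psh.2) hy y0 (int_lv hφ hy yA h.l2)
    (int_lv hφ hy yA h'.l2) (int_gy hΦ.psh hφ hy yA h.l2 h'.l2) hQ ε0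
  simpa [en, vd_const] using hC (fun _ => 1) 1 (sm_const _) zero_le_one (fun _ => by simp)
    (by simp [Sq, vd_const])

/-- the space of tangent harmonic fields -/
def tang (hΦ : D.Pos Φ) (hc : D.Cut Φ) (hφ : D.Psh φ) (hy : D.Sm y) (y0 : ∀ x, 0 ≤ y x) {A : ℝ}
    (yA : ∀ x ξ, |D.levi y x ξ| ≤ A * D.levi Φ x ξ) : Submodule ℂ (S → ι → ℂ) where
  carrier := {W | D.HH Φ φ W ∧ ∫ x, D.levi y x (W x) * Real.exp (-φ x) ∂D.μ = 0}
  zero_mem' := ⟨HH.zero hΦ hφ.1, by simp [levi_zero hy]⟩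
  smul_mem' := by
    rintro c W ⟨h, hQ⟩
    refine ⟨h.smul hΦ hφ.1 c, ?_⟩
    simp only [Pi.smul_apply, levi_smul hy, mul_assoc, integral_const_mul, hQ, mul_zero]
  add_mem' := by
    rintro W X ⟨h, hQ⟩ ⟨h', hQ'⟩
    have k := h.add hΦ hφ h'
    refine ⟨k, ofReal_injective ?_⟩
    rw [← integral_complex_ofReal]
    simp only [ofReal_mul, ← RD.gp_self hy]
    simp only [Pi.add_apply (f := W) (g := X), gp_add, add_mul]
    exact (integral_add (int_gy hΦ.psh hφ.1 hy yA h.l2 k.l2)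
      (int_gy hΦ.psh hφ.1 hy yA h'.l2 k.l2)).trans ((congrArg₂ (· + ·)
        (h.rad hΦ hc hφ.1 hy y0 yA hQ k) (h'.rad hΦ hc hφ.1 hy y0 yA hQ' k)).trans (by simp))

end RD

end

end Pool.Agent.Lib.MP_5c318e_ag
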