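import Pool.Agent.Lib.MP_5c318e_ag.Bo.TB

/-! Green's inequality for functions of linear growth along a tangent field. -/

set_option autoImplicit false
set_option linter.unusedSectionVars false

namespace Pool.Agent.Lib.MP_5c318e_ag

open MeasureTheory Set Complex Filter Topology
open scoped ComplexConjugate ContDiff

namespace RD

variable {ι : Type} [Fintype ι] [DecidableEq ι] {S : Type} [TopologicalSpace S]
  [MeasurableSpace S] [BorelSpace S] [T2Space S] [SigmaCompactSpace S] {D : RD ι S}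
  {Φ φ y : S → ℝ} {W X : S → ι → ℂ}

namespace T2

theorem levi_const (c : ℝ) (x : S) (ξ : ι → ℂ) : D.levi (fun _ => c) x ξ = 0 := by
  have e : ∀ k, (D.op I k fun _ => (c : ℂ)) = fun _ => 0 := fun k => funext (op_const I k _)
  simp [levi_coord (sm_const c), e, op_const]

theorem levi_off {f : S → ℝ} {x : S} (hx : x ∉ tsupport f) (ξ : ι → ℂ) :
    D.levi (fun z => f z ^ 2) x ξ = 0 := by
  rw [levi_congr (g := fun _ => (0 : ℝ)) _ ξ, levi_const]
  filter_upwards [notMem_tsupport_iff_eventuallyEq.1 hx] with z hz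
  simp [show f z = 0 from hz]

theorem levi_exp (W : S → ι → ℂ) {v : S → ℝ} (hv : D.Sm v) {R : ℝ} (R0 : 0 < R) (x : S) :
    D.levi (fun z => R * Real.exp (v z / R)) x (W x) = Real.exp (v x / R) * D.levi v x (W x) +
      R⁻¹ * (Real.exp (v x / R) * ‖D.vr W v x‖ ^ 2) := by
  have d : ∀ c s : ℝ, HasDerivAt (fun s => c * Real.exp (s / R)) (c / R * Real.exp (s / R)) s :=
    fun c s => by
      refine ((((hasDerivAt_id' s).div_const R).exp).const_mul c).congr_deriv ?_
      ring
  have d1 : deriv (fun s => R * Real.exp (s / R)) = fun s => 1 * Real.exp (s / R) :=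
    funext fun s => by rw [(d R s).deriv, div_self R0.ne']
  rw [Bo.levi_vr W (χ := fun s => R * Real.exp (s / R)) (by fun_prop) hv, d1, (d 1 _).deriv]
  ring

theorem lim_exp (s : ℝ) : Tendsto (fun n : ℕ => Real.exp (s / (n + 1))) atTop (𝓝 1) := by
  have : Tendsto (fun n : ℕ => s / ((n : ℝ) + 1)) atTop (𝓝 0) :=
    tendsto_const_nhds.div_atTop (tendsto_natCast_atTop_atTop.atTop_add tendsto_const_nhds)
  simpa [Function.comp_def] using (Real.continuous_exp.tendsto 0).comp this

theorem bd_exp {s R : ℝ} (hs : s ≤ 0) (R0 : 0 < R) :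
    s ≤ R * Real.exp (s / R) - R ∧ R * Real.exp (s / R) - R ≤ 0 := by
  have h1 := Real.add_one_le_exp (s / R)
  have h2 : Real.exp (s / R) ≤ 1 := Real.exp_le_one_iff.2 (div_nonpos_of_nonpos_of_nonneg hs R0.le)
  have h3 : R * (s / R) = s := by field_simp
  constructor <;> nlinarith

theorem lim_exp' (s : ℝ) :
    Tendsto (fun n : ℕ => ((n : ℝ) + 1) * Real.exp (s / (n + 1)) - (n + 1)) atTop (𝓝 s) := by
  have d : HasDerivAt (fun t : ℝ => Real.exp (s * t)) s 0 := by
    simpa using ((hasDerivAt_id (0 : ℝ)).const_mul s).exp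
  have t : Tendsto (fun n : ℕ => ((n : ℝ) + 1)⁻¹) atTop (𝓝[≠] 0) :=
    tendsto_nhdsWithin_iff.2 ⟨tendsto_inv_atTop_zero.comp
      (tendsto_natCast_atTop_atTop.atTop_add tendsto_const_nhds), .of_forall fun n => by
        have : (0 : ℝ) < ((n : ℝ) + 1)⁻¹ := by positivity
        exact this.ne'⟩
  refine (d.tendsto_slope_zero.comp t).congr fun n => ?_
  simp only [Function.comp, zero_add, mul_zero, Real.exp_zero, inv_inv, smul_eq_mul, div_eq_mul_inv]
  ring

/-- Green's formula for `R exp (v / R)` -/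
theorem green_exp (hφ : D.Sm φ) (h : D.Fl φ W) {f v k : S → ℝ} (hf : D.Sm f) (hv : D.Sm v) {B : ℝ}
    (fB : ∀ x, |f x| ≤ B) (f2 : D.Sq φ (D.vr W f)) (v0 : ∀ x, x ∈ tsupport f → v x ≤ 0)
    (li : Integrable (fun x => D.levi (fun z => f z ^ 2) x (W x) * Real.exp (-φ x)) D.μ)
    {R : ℝ} (R0 : 0 < R) (c : ℝ) (hc : c = 1 ∨ c = -1) (k0 : ∀ x, 0 ≤ k x)
    (hk : ∀ x, f x ≠ 0 → -k x ≤ c * D.levi (fun z => R * Real.exp (v z / R)) x (W x))
    (ki : Integrable (fun x => f x ^ 2 * k x * Real.exp (-φ x)) D.μ) :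
    Integrable (fun x => f x ^ 2 * D.levi (fun z => R * Real.exp (v z / R)) x (W x) *
      Real.exp (-φ x)) D.μ ∧
    ∫ x, f x ^ 2 * D.levi (fun z => R * Real.exp (v z / R)) x (W x) * Real.exp (-φ x) ∂D.μ =
      ∫ x, (R * Real.exp (v x / R) - R) * D.levi (fun z => f z ^ 2) x (W x) *
        Real.exp (-φ x) ∂D.μ := by
  have s1 : D.Sm fun z => R * Real.exp (v z / R) :=
    hv.comp (g := fun s => R * Real.exp (s / R)) (by fun_prop)
  have s2 : D.Sm fun z => c * (R * Real.exp (v z / R)) := (sm_const c).mul s1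
  have s3 : D.Sm fun z => R + c * (R * Real.exp (v z / R)) := (sm_const R).add s2
  have e : ∀ x, D.levi (fun z => R + c * (R * Real.exp (v z / R))) x (W x) =
      c * D.levi (fun z => R * Real.exp (v z / R)) x (W x) := fun x => by
    rw [levi_add (sm_const R) s2, levi_const, zero_add, levi_cmul c s1]
  have b : ∀ x, x ∈ tsupport f → 0 ≤ R + c * (R * Real.exp (v x / R)) ∧
      R + c * (R * Real.exp (v x / R)) ≤ 2 * R := fun x hx => by
    have h1 := (bd_exp (v0 x hx) R0).2
    have h2 : 0 < R * Real.exp (v x / R) := by positivity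
    rcases hc with rfl | rfl <;> constructor <;> linarith
  have g1 := h.green hφ hf s3 fB f2 b k0 (fun x hx => by rw [e]; exact hk x hx) ki li
  have g2 := (h.cacc hφ hf s3 fB f2 (fun x hx => b x (subset_tsupport f hx)) k0
    (fun x hx => by rw [e]; exact hk x hx) ki).2.2.1
  have g0 := h.green hφ hf (sm_const (1 : ℝ)) (k := fun _ => 0) (M := 1) fB f2
    (fun _ _ => ⟨zero_le_one, le_rfl⟩) (fun _ => le_rfl) (fun x _ => by simp [levi_const])
    (by simp) li
  simp only [levi_const, mul_zero, zero_mul, integral_zero, one_mul] at g0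
  have i1 : Integrable (fun x => (R * Real.exp (v x / R) - R) *
      D.levi (fun z => f z ^ 2) x (W x) * Real.exp (-φ x)) D.μ := by
    refine (li.norm.const_mul R).mono' (((s1.sub (sm_const R)).mul
      (Bo.lv_sm (hf.comp (g := fun s => s ^ 2) (by fun_prop)) h.sm)).mul
      hφ.neg.rexp).cont.aestronglyMeasurable (.of_forall fun x => ?_)
    by_cases hx : x ∈ tsupport f
    · rw [mul_assoc, norm_mul]
      refine mul_le_mul_of_nonneg_right (abs_le.2 ⟨?_, ?_⟩) (norm_nonneg _)
      · have : 0 < R * Real.exp (v x / R) := by positivity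
        linarith
      · linarith [(bd_exp (v0 x hx) R0).2]
    · simp [levi_off hx]
  have cc : c * c = 1 := by rcases hc with rfl | rfl <;> norm_num
  simp only [e] at g1 g2
  refine ⟨(g2.const_mul c).congr (.of_forall fun x => ?_), ?_⟩
  · show c * _ = _
    linear_combination (f x ^ 2 * D.levi (fun z => R * Real.exp (v z / R)) x (W x) *
      Real.exp (-φ x)) * cc
  · have e1 : ∀ x, f x ^ 2 * (c * D.levi (fun z => R * Real.exp (v z / R)) x (W x)) *
        Real.exp (-φ x) = c * (f x ^ 2 * D.levi (fun z => R * Real.exp (v z / R)) x (W x) *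
        Real.exp (-φ x)) := fun x => by ring
    have e2 : ∀ x, (R + c * (R * Real.exp (v x / R))) * D.levi (fun z => f z ^ 2) x (W x) *
        Real.exp (-φ x) = c * ((R * Real.exp (v x / R) - R) * D.levi (fun z => f z ^ 2) x (W x) *
        Real.exp (-φ x)) + (R + c * R) * (D.levi (fun z => f z ^ 2) x (W x) * Real.exp (-φ x)) :=
      fun x => by ring
    simp only [e1, e2] at g1
    rw [integral_add (i1.const_mul c) (li.const_mul _), integral_const_mul, integral_const_mul,
      integral_const_mul, ← g0, mul_zero, add_zero] at g1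
    exact mul_left_cancel₀ (by rintro rfl; simp at cc) g1

theorem lim_rhs (hφ : D.Sm φ) (h : D.Fl φ W) {f v : S → ℝ} (hf : D.Sm f) (hv : D.Sm v)
    (v0 : ∀ x, x ∈ tsupport f → v x ≤ 0)
    (vi : Integrable (fun x => v x * D.levi (fun z => f z ^ 2) x (W x) * Real.exp (-φ x)) D.μ) :
    Tendsto (fun n : ℕ => ∫ x, (((n : ℝ) + 1) * Real.exp (v x / (n + 1)) - (n + 1)) *
      D.levi (fun z => f z ^ 2) x (W x) * Real.exp (-φ x) ∂D.μ) atTop
      (𝓝 (∫ x, v x * D.levi (fun z => f z ^ 2) x (W x) * Real.exp (-φ x) ∂D.μ)) := by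
  refine tendsto_integral_of_dominated_convergence _ (fun n => ?_) vi.norm
    (fun n => .of_forall fun x => ?_) (.of_forall fun x => ?_)
  · exact ((((hv.comp (g := fun s => ((n : ℝ) + 1) * Real.exp (s / (n + 1))) (by fun_prop)).sub
      (sm_const _)).mul (Bo.lv_sm (hf.comp (g := fun s => s ^ 2) (by fun_prop)) h.sm)).mul
      hφ.neg.rexp).cont.aestronglyMeasurable
  · by_cases hx : x ∈ tsupport f
    · rw [mul_assoc, mul_assoc (v x), norm_mul, norm_mul (v x)]
      have := bd_exp (v0 x hx) (R := (n : ℝ) + 1) (by positivity)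
      refine mul_le_mul_of_nonneg_right ?_ (norm_nonneg _)
      rw [Real.norm_eq_abs, Real.norm_eq_abs, abs_of_nonpos this.2, abs_of_nonpos (v0 x hx)]
      linarith [this.1]
    · simp [levi_off hx]
  · exact ((lim_exp' (v x)).mul_const _).mul_const _

theorem lim_dom {v g : S → ℝ} (hv : D.Sm v) (v0 : ∀ x, g x ≠ 0 → v x ≤ 0) (gi : Integrable g D.μ) :
    (∀ n : ℕ, Integrable (fun x => Real.exp (v x / (n + 1)) * g x) D.μ) ∧
    Tendsto (fun n : ℕ => ∫ x, Real.exp (v x / (n + 1)) * g x ∂D.μ) atTop (𝓝 (∫ x, g x ∂D.μ)) := by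
  have m : ∀ n : ℕ, AEStronglyMeasurable (fun x => Real.exp (v x / (n + 1)) * g x) D.μ := fun n =>
    (hv.comp (g := fun s => Real.exp (s / (n + 1))) (by fun_prop)).cont.aestronglyMeasurable.mul
      gi.aestronglyMeasurable
  have b : ∀ (n : ℕ) x, ‖Real.exp (v x / (n + 1)) * g x‖ ≤ ‖g x‖ := fun n x => by
    by_cases hx : g x = 0
    · simp [hx]
    · rw [norm_mul, Real.norm_of_nonneg (Real.exp_pos _).le]
      exact mul_le_of_le_one_left (norm_nonneg _) (Real.exp_le_one_iff.2
        (div_nonpos_of_nonpos_of_nonneg (v0 x hx) (by positivity)))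
  refine ⟨fun n => gi.norm.mono' (m n) (.of_forall (b n)), tendsto_integral_of_dominated_convergence
    _ m gi.norm (fun n => .of_forall (b n)) (.of_forall fun x => ?_)⟩
  simpa using (lim_exp (v x)).mul_const (g x)

/-- Green's inequality for a function that is nonpositive on the support of `f` -/
theorem green_neg (hφ : D.Sm φ) (h : D.Fl φ W) {f v k : S → ℝ} (hf : D.Sm f) (hv : D.Sm v) {B : ℝ}
    (fB : ∀ x, |f x| ≤ B) (f2 : D.Sq φ (D.vr W f)) (v0 : ∀ x, x ∈ tsupport f → v x ≤ 0)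
    (k0 : ∀ x, 0 ≤ k x) (hk : ∀ x, f x ≠ 0 → -k x ≤ D.levi v x (W x))
    (ki : Integrable (fun x => f x ^ 2 * k x * Real.exp (-φ x)) D.μ)
    (li : Integrable (fun x => D.levi (fun z => f z ^ 2) x (W x) * Real.exp (-φ x)) D.μ)
    (vi : Integrable (fun x => v x * D.levi (fun z => f z ^ 2) x (W x) * Real.exp (-φ x)) D.μ) :
    Integrable (fun x => f x ^ 2 * D.levi v x (W x) * Real.exp (-φ x)) D.μ ∧
      ∫ x, f x ^ 2 * D.levi v x (W x) * Real.exp (-φ x) ∂D.μ ≤
        ∫ x, v x * D.levi (fun z => f z ^ 2) x (W x) * Real.exp (-φ x) ∂D.μ := by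
  have sl := Bo.lv_sm hv h.sm
  have G : ∀ n : ℕ, _ := fun n => green_exp hφ h hf hv fB f2 v0 li (R := (n : ℝ) + 1)
    (by positivity) 1 (.inl rfl) k0 (fun x hx => by
      rw [one_mul, levi_exp W hv (by positivity)]
      have h1 : Real.exp (v x / (n + 1)) ≤ 1 := Real.exp_le_one_iff.2
        (div_nonpos_of_nonpos_of_nonneg (v0 x (subset_tsupport f hx)) (by positivity))
      have h2 := Real.exp_pos (v x / (n + 1))
      have h3 : 0 ≤ ((n : ℝ) + 1)⁻¹ * (Real.exp (v x / (n + 1)) * ‖D.vr W v x‖ ^ 2) := by positivity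
      nlinarith [hk x hx, k0 x]) ki
  obtain ⟨K1, K2⟩ := lim_dom hv (g := fun x => f x ^ 2 * k x * Real.exp (-φ x))
    (fun x hx => v0 x (subset_tsupport f fun h0 => hx (by simp [h0]))) ki
  set p : S → ℝ := fun x => f x ^ 2 * D.levi v x (W x) * Real.exp (-φ x) +
    f x ^ 2 * k x * Real.exp (-φ x) with hp
  have p0 : ∀ x, 0 ≤ p x := fun x => by
    by_cases hx : f x = 0
    · simp [hp, hx]
    · have : 0 ≤ f x ^ 2 * (D.levi v x (W x) + k x) * Real.exp (-φ x) :=
        mul_nonneg (mul_nonneg (sq_nonneg _) (by linarith [hk x hx])) (Real.exp_pos _).le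
      simp only [hp]
      linarith
  have m0 : AEStronglyMeasurable (fun x => f x ^ 2 * D.levi v x (W x) * Real.exp (-φ x)) D.μ :=
    (((hf.comp (g := fun s => s ^ 2) (by fun_prop)).mul sl).mul
      hφ.neg.rexp).cont.aestronglyMeasurable
  have pm : AEStronglyMeasurable p D.μ := m0.add ki.aestronglyMeasurable
  have qm : ∀ n : ℕ, AEStronglyMeasurable (fun x => Real.exp (v x / (n + 1)) * p x) D.μ := fun n =>
    (hv.comp (g := fun s => Real.exp (s / (n + 1))) (by fun_prop)).cont.aestronglyMeasurable.mul pm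
  have q0 : ∀ (n : ℕ) x, 0 ≤ Real.exp (v x / (n + 1)) * p x := fun n x =>
    mul_nonneg (Real.exp_pos _).le (p0 x)
  have le : ∀ (n : ℕ) x, Real.exp (v x / (n + 1)) * p x ≤
      f x ^ 2 * D.levi (fun z => ((n : ℝ) + 1) * Real.exp (v z / (n + 1))) x (W x) *
        Real.exp (-φ x) + Real.exp (v x / (n + 1)) * (f x ^ 2 * k x * Real.exp (-φ x)) :=
    fun n x => by
      rw [levi_exp W hv (by positivity)]
      have : 0 ≤ f x ^ 2 * (((n : ℝ) + 1)⁻¹ * (Real.exp (v x / (n + 1)) * ‖D.vr W v x‖ ^ 2)) *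
        Real.exp (-φ x) := by positivity
      simp only [hp]
      nlinarith
  have qi : ∀ n : ℕ, Integrable (fun x => Real.exp (v x / (n + 1)) * p x) D.μ := fun n =>
    ((G n).1.add (K1 n)).mono' (qm n) (.of_forall fun x => by
      rw [Real.norm_of_nonneg (q0 n x)]; exact le n x)
  have T := (lim_rhs hφ h hf hv v0 vi).add K2
  have ql : ∀ n : ℕ, ∫ x, Real.exp (v x / (n + 1)) * p x ∂D.μ ≤ _ := fun n =>
    (integral_mono (qi n) ((G n).1.add (K1 n)) (le n)).trans_eq
      ((integral_add (G n).1 (K1 n)).trans (congrArg (· + _) (G n).2))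
  have F : ∫⁻ x, ENNReal.ofReal (p x) ∂D.μ ≤ ENNReal.ofReal
      (∫ x, v x * D.levi (fun z => f z ^ 2) x (W x) * Real.exp (-φ x) ∂D.μ +
        ∫ x, f x ^ 2 * k x * Real.exp (-φ x) ∂D.μ) := by
    have e : ∀ x, ENNReal.ofReal (p x) =
        liminf (fun n : ℕ => ENNReal.ofReal (Real.exp (v x / (n + 1)) * p x)) atTop := fun x =>
      (ENNReal.tendsto_ofReal (by simpa using (lim_exp (v x)).mul_const (p x))).liminf_eq.symm
    simp only [e]
    refine (lintegral_liminf_le' fun n => (qm n).aemeasurable.ennreal_ofReal).trans ?_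
    rw [← (ENNReal.tendsto_ofReal T).liminf_eq]
    refine liminf_le_liminf (.of_forall fun n => ?_)
    rw [← ofReal_integral_eq_lintegral_ofReal (qi n) (.of_forall (q0 n))]
    exact ENNReal.ofReal_le_ofReal (ql n)
  have pi : Integrable p D.μ := ⟨pm, (hasFiniteIntegral_iff_ofReal (.of_forall p0)).2
    (F.trans_lt ENNReal.ofReal_lt_top)⟩
  have i0 : Integrable (fun x => f x ^ 2 * D.levi v x (W x) * Real.exp (-φ x)) D.μ :=
    (pi.sub ki).congr (.of_forall fun x => by simp [hp])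
  refine ⟨i0, ?_⟩
  have := le_of_tendsto_of_tendsto' (lim_dom hv (g := p) (fun x hx => v0 x (subset_tsupport f
    fun h0 => hx (by simp [hp, h0]))) pi).2 T ql
  rw [hp, integral_add i0 ki] at this
  linarith

theorem sq_bd {f g : S → ℝ} (hf : D.Sm f) {B : ℝ} (fB : ∀ x, |f x| ≤ B) (gi : Integrable g D.μ) :
    Integrable (fun x => f x ^ 2 * g x) D.μ :=
  gi.bdd_mul (c := B ^ 2) (hf.comp (g := fun s => s ^ 2) (by fun_prop)).cont.aestronglyMeasurable
    (.of_forall fun x => by
      rw [norm_pow]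
      exact pow_le_pow_left₀ (norm_nonneg _) (fB x) 2)

/-- Green's formula for `y` along a tangent field -/
theorem green_y (hφ : D.Sm φ) (h : D.Fl φ W) (hy : D.Sm y) (y0 : ∀ x, 0 ≤ y x)
    (yi : Integrable (fun x => D.levi y x (W x) * Real.exp (-φ x)) D.μ)
    (hQ : ∫ x, D.levi y x (W x) * Real.exp (-φ x) ∂D.μ = 0) {f : S → ℝ} (hf : D.Sm f) {B : ℝ}
    (fB : ∀ x, |f x| ≤ B) (f2 : D.Sq φ (D.vr W f))
    (li : Integrable (fun x => D.levi (fun z => f z ^ 2) x (W x) * Real.exp (-φ x)) D.μ)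
    (vi : Integrable (fun x => y x * D.levi (fun z => f z ^ 2) x (W x) * Real.exp (-φ x)) D.μ) :
    ∫ x, f x ^ 2 * D.levi y x (W x) * Real.exp (-φ x) ∂D.μ =
      ∫ x, y x * D.levi (fun z => f z ^ 2) x (W x) * Real.exp (-φ x) ∂D.μ := by
  have en : ∀ x, D.levi (fun z => -y z) x (W x) = -D.levi y x (W x) := fun x => by
    simpa using levi_cmul (-1) hy x (W x)
  have ev : ∀ x, ‖D.vr W (fun z => -y z) x‖ = ‖D.vr W y x‖ := fun x => by
    have := Bo.vr_sub W (sm_const (0 : ℝ)) hy x
    simp only [zero_sub, Bo.vr_const] at this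
    rw [this, norm_neg]
  have el : ∀ (n : ℕ) x, D.levi (fun z => ((n : ℝ) + 1) * Real.exp (-y z / (n + 1))) x (W x) =
      ((n : ℝ) + 1)⁻¹ * (Real.exp (-y x / (n + 1)) * ‖D.vr W y x‖ ^ 2) -
        Real.exp (-y x / (n + 1)) * D.levi y x (W x) := fun n x => by
    rw [levi_exp W hy.neg (by positivity), en, ev]
    ring
  have fy := sq_bd hf fB yi
  obtain ⟨K1, K2⟩ := lim_dom hy.neg (g := fun x => f x ^ 2 * (D.levi y x (W x) * Real.exp (-φ x)))
    (fun x _ => neg_nonpos.2 (y0 x)) fy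
  have t1 := fun n : ℕ => (h.t1 hφ hy y0 yi (R := (n : ℝ) + 1) (by positivity)).1
  have G : ∀ n : ℕ, _ := fun n => (green_exp hφ h hf hy.neg fB f2 (fun x _ => neg_nonpos.2 (y0 x))
    li (R := (n : ℝ) + 1) (by positivity) 1 (.inl rfl) (k := fun x => |D.levi y x (W x)|)
    (fun x => abs_nonneg _) (fun x _ => by
      rw [one_mul, el]
      have h1 : Real.exp (-y x / (n + 1)) ≤ 1 := Real.exp_le_one_iff.2
        (div_nonpos_of_nonpos_of_nonneg (neg_nonpos.2 (y0 x)) (by positivity))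
      have h2 := Real.exp_pos (-y x / (n + 1))
      have h3 : 0 ≤ ((n : ℝ) + 1)⁻¹ * (Real.exp (-y x / (n + 1)) * ‖D.vr W y x‖ ^ 2) := by
        positivity
      nlinarith [le_abs_self (D.levi y x (W x)), abs_nonneg (D.levi y x (W x))])
    ((sq_bd hf fB yi.abs).congr (.of_forall fun x => by
      simp only [abs_mul, abs_of_pos (Real.exp_pos _), mul_assoc]))).2
  have T := lim_rhs hφ h hf hy.neg (fun x _ => neg_nonpos.2 (y0 x))
    (vi.neg.congr (.of_forall fun x => by simp))
  have L := (h.t1_lim hφ hy y0 yi).comp (tendsto_natCast_atTop_atTop.atTop_add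
    (tendsto_const_nhds (x := (1 : ℝ))))
  rw [hQ] at L
  have Z : Tendsto (fun n : ℕ => ((n : ℝ) + 1)⁻¹ * ∫ x, f x ^ 2 *
      (Real.exp (-y x / (n + 1)) * ‖D.vr W y x‖ ^ 2 * Real.exp (-φ x)) ∂D.μ) atTop (𝓝 0) := by
    refine squeeze_zero (fun n => mul_nonneg (by positivity) (integral_nonneg fun x => by positivity))
      (fun n => ?_) (by simpa using L.const_mul (B ^ 2))
    rw [mul_left_comm, ← integral_const_mul (B ^ 2)]
    refine mul_le_mul_of_nonneg_left (integral_mono (sq_bd hf fB (t1 n)) ((t1 n).const_mul _)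
      fun x => mul_le_mul_of_nonneg_right ?_ (by positivity)) (by positivity)
    rw [← sq_abs]
    exact pow_le_pow_left₀ (abs_nonneg _) (fB x) 2
  have E := tendsto_nhds_unique ((Z.sub K2).congr fun n => by
    rw [← G n, ← integral_const_mul, ← integral_sub ((sq_bd hf fB (t1 n)).const_mul _) (K1 n)]
    exact integral_congr_ae (.of_forall fun x => by simp only [el]; ring)) T
  simp only [neg_mul, integral_neg, zero_sub, neg_inj, ← mul_assoc] at E
  exact E

end T2

/-- T2: for a tangent field, Green's inequality for functions of growth `C y + C` -/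
theorem Fl.t2 (hφ : D.Sm φ) (h : D.Fl φ W) (hy : D.Sm y) (y0 : ∀ x, 0 ≤ y x)
    (yi : Integrable (fun x => D.levi y x (W x) * Real.exp (-φ x)) D.μ)
    (hQ : ∫ x, D.levi y x (W x) * Real.exp (-φ x) ∂D.μ = 0)
    {f u k : S → ℝ} (hf : D.Sm f) (hu : D.Sm u) {B C : ℝ} (fB : ∀ x, |f x| ≤ B)
    (f2 : D.Sq φ (D.vr W f)) (uC : ∀ x, x ∈ tsupport f → 0 ≤ u x ∧ u x ≤ C * y x + C)
    (k0 : ∀ x, 0 ≤ k x) (hk : ∀ x, f x ≠ 0 → -k x ≤ D.levi u x (W x))
    (ki : Integrable (fun x => f x ^ 2 * k x * Real.exp (-φ x)) D.μ)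
    (li : Integrable (fun x => (1 + y x) * D.levi (fun z => f z ^ 2) x (W x) * Real.exp (-φ x)) D.μ) :
    Integrable (fun x => f x ^ 2 * D.levi u x (W x) * Real.exp (-φ x)) D.μ ∧
      ∫ x, f x ^ 2 * D.levi u x (W x) * Real.exp (-φ x) ∂D.μ ≤
        ∫ x, u x * D.levi (fun z => f z ^ 2) x (W x) * Real.exp (-φ x) ∂D.μ := by
  have dom : ∀ (g : S → ℝ) (c : ℝ), D.Sm g → (∀ x ∈ tsupport f, |g x| ≤ c * (1 + y x)) →
      Integrable (fun x => g x * D.levi (fun z => f z ^ 2) x (W x) * Real.exp (-φ x)) D.μ :=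
    fun g c sg hg => (li.norm.const_mul c).mono' ((sg.mul (Bo.lv_sm (hf.comp (g := fun s => s ^ 2)
      (by fun_prop)) h.sm)).mul hφ.neg.rexp).cont.aestronglyMeasurable (.of_forall fun x => by
        by_cases hx : x ∈ tsupport f
        · rw [mul_assoc, mul_assoc (1 + y x), norm_mul, norm_mul (1 + y x), ← mul_assoc,
            Real.norm_of_nonneg (add_nonneg zero_le_one (y0 x))]
          exact mul_le_mul_of_nonneg_right (hg x hx) (norm_nonneg _)
        · simp [T2.levi_off hx])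
  have l1 : Integrable (fun x => D.levi (fun z => f z ^ 2) x (W x) * Real.exp (-φ x)) D.μ := by
    simpa using dom (fun _ => 1) 1 (sm_const _) fun x _ => by simpa using y0 x
  have ly := dom y 1 hy fun x _ => by rw [abs_of_nonneg (y0 x)]; linarith
  have lu := dom u C hu fun x hx => by rw [abs_of_nonneg (uC x hx).1]; linarith [(uC x hx).2]
  have sc : D.Sm fun x => -C * y x := (sm_const _).mul hy
  have sv : D.Sm fun x => u x + -C * y x - C := (hu.add sc).sub (sm_const _)
  have ev : ∀ x, D.levi (fun x => u x + -C * y x - C) x (W x) =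
      D.levi u x (W x) - C * D.levi y x (W x) := fun x => by
    rw [levi_sub_const (hu.add sc), levi_add hu sc, levi_cmul _ hy]
    ring
  have fy : Integrable (fun x => f x ^ 2 * D.levi y x (W x) * Real.exp (-φ x)) D.μ :=
    (T2.sq_bd hf fB yi).congr (.of_forall fun x => (mul_assoc _ _ _).symm)
  have e2 : ∀ x, (u x + -C * y x - C) * D.levi (fun z => f z ^ 2) x (W x) * Real.exp (-φ x) =
      u x * D.levi (fun z => f z ^ 2) x (W x) * Real.exp (-φ x) -
        C * (y x * D.levi (fun z => f z ^ 2) x (W x) * Real.exp (-φ x)) -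
        C * (D.levi (fun z => f z ^ 2) x (W x) * Real.exp (-φ x)) := fun x => by ring
  obtain ⟨g1, g2⟩ := T2.green_neg hφ h hf sv fB f2 (fun x hx => by linarith [(uC x hx).2])
    (k := fun x => k x + |C * D.levi y x (W x)|) (fun x => add_nonneg (k0 x) (abs_nonneg _))
    (fun x hx => by rw [ev]; linarith [hk x hx, le_abs_self (C * D.levi y x (W x))])
    ((ki.add (fy.const_mul C).abs).congr (.of_forall fun x => by
      simp only [Pi.add_apply, abs_mul, abs_of_pos (Real.exp_pos _), abs_pow, sq_abs]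
      ring)) l1 (by simp only [e2]; exact (lu.sub (ly.const_mul C)).sub (l1.const_mul C))
  have g0 := h.green hφ hf (sm_const (1 : ℝ)) (k := fun _ => 0) (M := 1) fB f2
    (fun _ _ => ⟨zero_le_one, le_rfl⟩) (fun _ => le_rfl) (fun x _ => by simp [T2.levi_const])
    (by simp) l1
  simp only [T2.levi_const, mul_zero, zero_mul, integral_zero, one_mul] at g0
  have i0 : Integrable (fun x => f x ^ 2 * D.levi u x (W x) * Real.exp (-φ x)) D.μ :=
    (g1.add (fy.const_mul C)).congr (.of_forall fun x => by simp only [Pi.add_apply, ev]; ring)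
  refine ⟨i0, ?_⟩
  have e1 : ∀ x, f x ^ 2 * D.levi (fun x => u x + -C * y x - C) x (W x) * Real.exp (-φ x) =
      f x ^ 2 * D.levi u x (W x) * Real.exp (-φ x) -
        C * (f x ^ 2 * D.levi y x (W x) * Real.exp (-φ x)) := fun x => by rw [ev]; ring
  simp only [e1, e2] at g2
  have l2 : Integrable (fun x => u x * D.levi (fun z => f z ^ 2) x (W x) * Real.exp (-φ x) -
      C * (y x * D.levi (fun z => f z ^ 2) x (W x) * Real.exp (-φ x))) D.μ :=
    lu.sub (ly.const_mul C)
  rw [integral_sub i0 (fy.const_mul C), integral_sub l2 (l1.const_mul C),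
    integral_sub lu (ly.const_mul C), integral_const_mul, integral_const_mul, integral_const_mul,
    ← g0, T2.green_y hφ h hy y0 yi hQ hf fB f2 l1 ly] at g2
  linarith

/-- T2 with `f = 1` for a psh function -/
theorem Fl.t2_psh (hφ : D.Sm φ) (h : D.Fl φ W) (hy : D.Sm y) (y0 : ∀ x, 0 ≤ y x)
    (yi : Integrable (fun x => D.levi y x (W x) * Real.exp (-φ x)) D.μ)
    (hQ : ∫ x, D.levi y x (W x) * Real.exp (-φ x) ∂D.μ = 0) {u : S → ℝ} (hu : D.Sm u)
    (u0 : ∀ x, 0 ≤ D.levi u x (W x)) {C : ℝ} (uC : ∀ x, u x ≤ C * y x + C) (x : S) :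
    D.vr W u x = 0 := by
  have c1 : ContDiff ℝ ∞ fun s : ℝ => Real.log (1 + Real.exp s) :=
    ContDiff.log (by fun_prop) fun s => by positivity
  have d1 : deriv (fun s : ℝ => Real.log (1 + Real.exp s)) = fun s => 1 - (1 + Real.exp s)⁻¹ :=
    funext fun s => by
      have p : 1 + Real.exp s ≠ 0 := by positivity
      rw [(((Real.hasDerivAt_exp s).const_add 1).log p).deriv]
      field_simp
      ring
  have d2 : ∀ s, deriv (fun s : ℝ => 1 - (1 + Real.exp s)⁻¹) s = Real.exp s / (1 + Real.exp s) ^ 2 :=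
    fun s => by
      have p : 1 + Real.exp s ≠ 0 := by positivity
      rw [((((Real.hasDerivAt_exp s).const_add 1).fun_inv p).const_sub 1).deriv]
      ring
  have p1 : ∀ s, 0 ≤ 1 - (1 + Real.exp s)⁻¹ := fun s =>
    sub_nonneg.2 (inv_le_one_of_one_le₀ (by linarith [Real.exp_pos s]))
  have sw := hu.comp c1
  have el : ∀ x, D.levi (fun z => Real.log (1 + Real.exp (u z))) x (W x) =
      (1 - (1 + Real.exp (u x))⁻¹) * D.levi u x (W x) +
        Real.exp (u x) / (1 + Real.exp (u x)) ^ 2 * ‖D.vr W u x‖ ^ 2 := fun x => by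
    rw [Bo.levi_vr W c1 hu, d1, d2]
  have w0 : ∀ x, 0 ≤ D.levi (fun z => Real.log (1 + Real.exp (u z))) x (W x) := fun x => by
    rw [el]
    exact add_nonneg (mul_nonneg (p1 _) (u0 x)) (by positivity)
  obtain ⟨g1, g2⟩ := h.t2 hφ hy y0 yi hQ (f := fun _ => 1) (k := fun _ => 0) (sm_const _) sw
    (B := 1) (C := |C| + 1) (by simp) (by simp [Sq, Bo.vr_const]) (fun x _ => ⟨Real.log_nonneg
      (by linarith [Real.exp_pos (u x)]), by
        have a0 : 0 ≤ |C| * y x + |C| := by have := y0 x; positivity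
        have a1 : u x ≤ |C| * y x + |C| := by nlinarith [uC x, le_abs_self C, y0 x]
        rw [Real.log_le_iff_le_exp (by positivity)]
        have a2 := Real.exp_le_exp.2 a1
        have a3 := Real.one_le_exp a0
        have a4 := Real.add_one_le_exp (y x + 1)
        rw [show (|C| + 1) * y x + (|C| + 1) = (|C| * y x + |C|) + (y x + 1) by ring, Real.exp_add]
        nlinarith [y0 x]⟩) (fun _ => le_rfl) (fun x _ => by simpa using w0 x) (by simp)
    (by simp [T2.levi_const])
  simp only [one_pow, one_mul, T2.levi_const, mul_zero, zero_mul, integral_zero] at g1 g2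
  have n0 : ∀ x, 0 ≤ D.levi (fun z => Real.log (1 + Real.exp (u z))) x (W x) * Real.exp (-φ x) :=
    fun x => mul_nonneg (w0 x) (Real.exp_pos _).le
  have z := congrFun (Continuous.ae_eq_iff_eq D.μ ((Bo.lv_sm sw h.sm).mul hφ.neg.rexp).cont
    continuous_zero |>.1 ((integral_eq_zero_iff_of_nonneg n0 g1).1
      (le_antisymm g2 (integral_nonneg n0)))) x
  simp only [Pi.zero_apply, mul_eq_zero, (Real.exp_pos _).ne', or_false, el] at z
  have q : 0 < Real.exp (u x) / (1 + Real.exp (u x)) ^ 2 := by positivity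
  have := mul_nonneg (p1 (u x)) (u0 x)
  have r : ‖D.vr W u x‖ ^ 2 ≤ 0 := by
    by_contra hc
    linarith [mul_pos q (not_le.1 hc)]
  simpa using le_antisymm r (sq_nonneg _)

end RD

end Pool.Agent.Lib.MP_5c318e_ag
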