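import Pool.Agent.Lib.MP_5c318e_ag.Bo.TB

/-! Tangent fields: the mixed curvature term against a bounded function. -/

set_option autoImplicit false
set_option linter.unusedSectionVars false

namespace Pool.Agent.Lib.MP_5c318e_ag

open MeasureTheory Set Complex Filter Topology
open scoped ComplexConjugate ContDiff

namespace RD

variable {ι : Type} [Fintype ι] [DecidableEq ι] {S : Type} [TopologicalSpace S]
  [MeasurableSpace S] [BorelSpace S] [T2Space S] [SigmaCompactSpace S] {D : RD ι S}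
  {Φ φ y : S → ℝ} {W X : S → ι → ℂ}

namespace Bo3

/-- Cauchy-Schwarz -/
theorem cs {μ : Measure S} {F : S → ℂ} {p q : S → ℝ} (hp : Integrable p μ) (hq : Integrable q μ)
    (p0 : ∀ x, 0 ≤ p x) (q0 : ∀ x, 0 ≤ q x) (hF : AEStronglyMeasurable F μ)
    (h : ∀ x, ‖F x‖ ^ 2 ≤ p x * q x) :
    Integrable F μ ∧ ‖∫ x, F x ∂μ‖ ≤ √(∫ x, p x ∂μ) * √(∫ x, q x ∂μ) := by
  have bd : ∀ l : ℝ, 0 < l → ∀ x, ‖F x‖ ≤ l / 2 * p x + l⁻¹ / 2 * q x := fun l l0 x => by
    refine (abs_le_of_sq_le_sq' ((h x).trans ?_) (add_nonneg (mul_nonneg (by positivity) (p0 x))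
      (mul_nonneg (by positivity) (q0 x)))).2
    have e : p x * q x = (l * p x) * (l⁻¹ * q x) := by field_simp
    nlinarith [sq_nonneg (l * p x - l⁻¹ * q x)]
  have ib : ∀ l : ℝ, Integrable (fun x => l / 2 * p x + l⁻¹ / 2 * q x) μ := fun l =>
    (hp.const_mul _).add (hq.const_mul _)
  refine ⟨(ib 1).mono' hF (.of_forall (bd 1 one_pos)), ?_⟩
  set P := ∫ x, p x ∂μ
  set Q := ∫ x, q x ∂μ
  have P0 : 0 ≤ P := integral_nonneg p0
  have Q0 : 0 ≤ Q := integral_nonneg q0
  have key : ∀ e : ℝ, 0 < e → ‖∫ x, F x ∂μ‖ ≤ √(P + e) * √(Q + e) := fun e e0 => by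
    have a : 0 < √(P + e) := Real.sqrt_pos.2 (by positivity)
    have b : 0 < √(Q + e) := Real.sqrt_pos.2 (by positivity)
    have a2 : √(P + e) ^ 2 = P + e := Real.sq_sqrt (by positivity)
    have b2 : √(Q + e) ^ 2 = Q + e := Real.sq_sqrt (by positivity)
    refine (norm_integral_le_of_norm_le (ib _) (.of_forall (bd _ (div_pos b a)))).trans ?_
    rw [integral_add (hp.const_mul _) (hq.const_mul _), integral_const_mul, integral_const_mul]
    calc _ ≤ √(Q + e) / √(P + e) / 2 * √(P + e) ^ 2 +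
          (√(Q + e) / √(P + e))⁻¹ / 2 * √(Q + e) ^ 2 :=
          add_le_add (mul_le_mul_of_nonneg_left (by linarith) (by positivity))
            (mul_le_mul_of_nonneg_left (by linarith) (by positivity))
      _ = _ := by field_simp; ring
  have lim : Tendsto (fun e : ℝ => √(P + e) * √(Q + e)) (𝓝[>] 0) (𝓝 (√P * √Q)) :=
    (Continuous.tendsto' (by fun_prop) _ _ (by simp)).mono_left nhdsWithin_le_nhds
  exact ge_of_tendsto lim (eventually_nhdsWithin_of_forall key)

theorem nwt (φ : S → ℝ) (x : S) (c : ℂ) :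
    ‖c * (Real.exp (-φ x) : ℂ)‖ = ‖c‖ * Real.exp (-φ x) := by
  rw [norm_mul, norm_real, Real.norm_of_nonneg (Real.exp_pos _).le]

/-- Cauchy-Schwarz for two square integrable functions -/
theorem cs_sq (hφ : D.Sm φ) {a b : S → ℂ} (ha : AEStronglyMeasurable a D.μ)
    (hb : AEStronglyMeasurable b D.μ) (a2 : D.Sq φ a) (b2 : D.Sq φ b) :
    Integrable (fun x => a x * b x * (Real.exp (-φ x) : ℂ)) D.μ ∧
      ‖∫ x, a x * b x * (Real.exp (-φ x) : ℂ) ∂D.μ‖ ≤ √(D.en φ a) * √(D.en φ b) :=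
  cs a2 b2 (fun _ => by positivity) (fun _ => by positivity)
    ((ha.mul hb).mul hφ.wt.cont.aestronglyMeasurable) fun x => by
      rw [nwt, norm_mul]
      exact le_of_eq (by ring)

theorem bdd {μ : Measure S} {F a : S → ℂ} (hF : Integrable F μ) (ha : Continuous a) {M : ℝ}
    (hM : ∀ x, ‖a x‖ ≤ M) : Integrable (fun x => a x * F x) μ ∧
      ‖∫ x, a x * F x ∂μ‖ ≤ M * ∫ x, ‖F x‖ ∂μ := by
  refine ⟨hF.bdd_mul ha.aestronglyMeasurable (.of_forall hM), ?_⟩
  rw [← integral_const_mul]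
  refine norm_integral_le_of_norm_le (hF.norm.const_mul M) (.of_forall fun x => ?_)
  rw [norm_mul]
  exact mul_le_mul_of_nonneg_right (hM x) (norm_nonneg _)

end Bo3

open Bo3

/-- T3 at finite level -/
theorem Fl.t3 (hφ : D.Sm φ) (h : D.Fl φ W) (h' : D.Fl φ X) (hy : D.Sm y) (y0 : ∀ x, 0 ≤ y x)
    (yi : Integrable (fun x => D.levi y x (W x) * Real.exp (-φ x)) D.μ)
    (yi' : Integrable (fun x => D.levi y x (X x) * Real.exp (-φ x)) D.μ)
    (gi : Integrable (fun x => D.gp y x (W x) (X x) * (Real.exp (-φ x) : ℂ)) D.μ)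
    (hQ : ∫ x, D.levi y x (W x) * Real.exp (-φ x) ∂D.μ = 0) {ε : ℝ} (ε0 : 0 < ε) :
    ∃ C : ℝ, 0 ≤ C ∧ ∀ (a : S → ℂ) (M : ℝ), D.Sm a → 0 ≤ M → (∀ x, ‖a x‖ ≤ M) →
      D.Sq φ (D.vd W a) →
      ‖∫ x, a x * D.gp y x (W x) (X x) * (Real.exp (-φ x) : ℂ) ∂D.μ‖ ≤
        ε * M + C * √(D.en φ (D.vd W a)) := by
  set G : S → ℂ := fun x => D.gp y x (W x) (X x) * (Real.exp (-φ x) : ℂ) with hG
  have e1 : ∀ R : ℝ, 0 < R → ∀ x, Real.exp (-y x / R) ≤ 1 := fun R R0 x =>
    Real.exp_le_one_iff.2 (div_nonpos_of_nonpos_of_nonneg (neg_nonpos.2 (y0 x)) R0.le)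
  have es : ∀ R : ℝ, D.Sm fun x => Real.exp (-y x / R) := fun R =>
    hy.comp (g := fun r => Real.exp (-r / R)) (by fun_prop)
  have l1 : Tendsto (fun R : ℝ => ∫ x, ‖((1 - Real.exp (-y x / R) : ℝ) : ℂ) * G x‖ ∂D.μ) atTop
      (𝓝 (∫ _x : S, (0 : ℝ) ∂D.μ)) := by
    refine tendsto_integral_filter_of_dominated_convergence (fun x => ‖G x‖)
      (.of_forall fun R => (((sm_const 1).sub (es R)).ofReal.cont.aestronglyMeasurable.mul
        gi.1).norm) ?_ gi.norm (.of_forall fun x => ?_)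
    · filter_upwards [eventually_gt_atTop 0] with R R0
      refine .of_forall fun x => ?_
      rw [norm_norm, norm_mul, norm_real, Real.norm_of_nonneg (sub_nonneg.2 (e1 R R0 x))]
      exact mul_le_of_le_one_left (norm_nonneg _) (by linarith [Real.exp_pos (-y x / R)])
    · have t : Tendsto (fun R : ℝ => -y x / R) atTop (𝓝 0) := tendsto_const_nhds.div_atTop tendsto_id
      have c : Continuous fun r : ℝ => ‖((1 - Real.exp r : ℝ) : ℂ) * G x‖ := by fun_prop
      exact (c.tendsto' 0 0 (by simp)).comp t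
  rw [integral_zero] at l1
  have l2 := (h.t1_lim hφ hy y0 yi).sqrt.mul (h'.t1_lim hφ hy y0 yi').sqrt
  rw [hQ, Real.sqrt_zero, zero_mul] at l2
  obtain ⟨R, ⟨r1, r2⟩, R0⟩ := (((l1.eventually (ge_mem_nhds (half_pos ε0))).and
    (l2.eventually (ge_mem_nhds (half_pos ε0)))).and (eventually_gt_atTop 0)).exists
  have iW := (h.t1 hφ hy y0 yi R0).1
  have iX := (h'.t1 hφ hy y0 yi' R0).1
  set χ : ℝ → ℝ := fun r => -R * Real.exp (-r / R) with hχ
  have cχ : ContDiff ℝ ∞ χ := by fun_prop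
  have dE : ∀ r, HasDerivAt (fun r : ℝ => Real.exp (-r / R)) (Real.exp (-r / R) * (-1 / R)) r :=
    fun r => ((hasDerivAt_neg r).div_const R).exp
  have d1 : deriv χ = fun r => Real.exp (-r / R) := funext fun r => by
    rw [((dE r).const_mul (-R)).deriv]
    field_simp
  have d2 : ∀ r, deriv (deriv χ) r = Real.exp (-r / R) * (-1 / R) := fun r => by
    rw [d1, (dE r).deriv]
  set b : S → ℂ := fun x => conj (D.vr X (fun z => χ (y z)) x) with hb
  have bs : D.Sm b := (Bo.vr_sm h'.sm (hy.comp cχ)).conj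
  have b2 : D.Sq φ b := iX.mono' (bs.normSq.mul hφ.neg.rexp).cont.aestronglyMeasurable
    (.of_forall fun x => by
      rw [Real.norm_of_nonneg (by positivity), hb]
      simp only [norm_conj]
      rw [Bo.vr_comp X cχ hy, d1, norm_mul, norm_real, Real.norm_of_nonneg (Real.exp_pos _).le,
        mul_pow]
      refine mul_le_mul_of_nonneg_right (mul_le_mul_of_nonneg_right ?_ (sq_nonneg _))
        (Real.exp_pos _).le
      rw [sq]
      exact mul_le_of_le_one_left (Real.exp_pos _).le (e1 R R0 x))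
  set H : S → ℂ := fun x => ((Real.exp (-y x / R) * (-1 / R) : ℝ) : ℂ) *
    (D.vr W y x * conj (D.vr X y x)) * (Real.exp (-φ x) : ℂ) with hH
  have Hs : D.Sm H := (((es R).mul (sm_const _)).ofReal.mul
    ((Bo.vr_sm h.sm hy).mul (Bo.vr_sm h'.sm hy).conj)).mul hφ.wt
  have cH := cs (F := fun x => (‖H x‖ : ℂ)) (iW.const_mul R⁻¹) (iX.const_mul R⁻¹)
    (fun _ => by positivity) (fun _ => by positivity)
    (continuous_ofReal.comp Hs.cont.norm).aestronglyMeasurable fun x => by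
      simp only [hH]
      rw [norm_real, norm_norm, nwt, norm_mul, norm_mul, norm_conj, norm_real, Real.norm_eq_abs,
        mul_pow, mul_pow, sq_abs]
      exact le_of_eq (by ring)
  have iH : Integrable H D.μ := cH.1.mono Hs.cont.aestronglyMeasurable (.of_forall fun x => by simp)
  have nH : ∫ x, ‖H x‖ ∂D.μ ≤ ε / 2 := by
    have := cH.2
    rw [integral_const_mul, integral_const_mul, integral_complex_ofReal, norm_real] at this
    exact (le_abs_self _).trans (this.trans r2)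
  have iG : Integrable (fun x => ((1 - Real.exp (-y x / R) : ℝ) : ℂ) * G x) D.μ :=
    (bdd gi ((sm_const 1).sub (es R)).ofReal.cont (M := 1) fun x => by
      rw [norm_real, Real.norm_of_nonneg (sub_nonneg.2 (e1 R R0 x))]
      linarith [Real.exp_pos (-y x / R)]).1
  refine ⟨√(D.en φ b), Real.sqrt_nonneg _, fun a M ha M0 hM a2 => ?_⟩
  have s1 := cs_sq hφ (Bo.vd_sm h.sm ha).cont.aestronglyMeasurable bs.cont.aestronglyMeasurable
    a2 b2
  have s2 := bdd iH ha.cont hM
  have s3 := bdd iG ha.cont hM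
  have s4 := (bdd gi ha.cont hM).1
  have e : ∀ x, D.vd W (fun z => a z * b z) x * (Real.exp (-φ x) : ℂ) =
      D.vd W a x * b x * (Real.exp (-φ x) : ℂ) + a x * H x + a x * G x -
        a x * (((1 - Real.exp (-y x / R) : ℝ) : ℂ) * G x) := fun x => by
    rw [Bo.vd_mul W ha bs, hb, Bo.vd_gp W h'.hol (hy.comp cχ), Bo.gp_comp W X cχ hy, d2, d1]
    simp only [hH, hG]
    push_cast
    ring
  have z := h.stokes hφ (ha.mul bs) ((b2.const_mul (M ^ 2)).mono'
    ((ha.mul bs).normSq.mul hφ.neg.rexp).cont.aestronglyMeasurable (.of_forall fun x => by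
      rw [Real.norm_of_nonneg (by positivity), norm_mul, mul_pow, mul_assoc]
      exact mul_le_mul_of_nonneg_right (pow_le_pow_left₀ (norm_nonneg _) (hM x) 2)
        (by positivity))) (by
      simp only [e]
      exact ((s1.1.add s2.1).add s4).sub s3.1)
  simp only [e] at z
  have j1 : Integrable (fun x => D.vd W a x * b x * (Real.exp (-φ x) : ℂ) + a x * H x) D.μ :=
    s1.1.add s2.1
  have j2 : Integrable (fun x => D.vd W a x * b x * (Real.exp (-φ x) : ℂ) + a x * H x + a x * G x)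
      D.μ := j1.add s4
  rw [integral_sub j2 s3.1, integral_add j1 s4, integral_add s1.1 s2.1] at z
  simp only [mul_assoc (a _)]
  have e2 : ∫ x, a x * G x ∂D.μ = ∫ x, a x * (((1 - Real.exp (-y x / R) : ℝ) : ℂ) * G x) ∂D.μ -
      ∫ x, a x * H x ∂D.μ - ∫ x, D.vd W a x * b x * (Real.exp (-φ x) : ℂ) ∂D.μ := by
    linear_combination z
  refine (congrArg norm e2).trans_le ((norm_sub_le _ _).trans (add_le_add ((norm_sub_le _ _).trans
    ?_) (s1.2.trans_eq (mul_comm _ _))))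
  nlinarith [s2.2, s3.2, mul_le_mul_of_nonneg_left nH M0, mul_le_mul_of_nonneg_left r1 M0]

end RD

end Pool.Agent.Lib.MP_5c318e_ag
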