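import Pool.Agent.Lib.MP_5c318e_ag.Bo.TDefs

/-! Stokes, Caccioppoli and Green along a holomorphic divergence free field. -/

set_option autoImplicit false
set_option linter.unusedSectionVars false

namespace Pool.Agent.Lib.MP_5c318e_ag

open MeasureTheory Set Filter Topology Complex
open scoped ContDiff ComplexConjugate
open Pool.Agent.Lib.MP_9ff3e7_ag

noncomputable section

namespace RD

variable {ι : Type} [Fintype ι] [DecidableEq ι] {S : Type} [TopologicalSpace S] [MeasurableSpace S]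
  [BorelSpace S] [T2Space S] [SigmaCompactSpace S] {D : RD ι S}
  {φ : S → ℝ} {W X : S → ι → ℂ} {a b : S → ℂ}

namespace Bo

theorem fatou {μ : Measure S} {G : S → ℝ} {g : ℕ → S → ℝ} (hg : ∀ n, Integrable (g n) μ)
    (g0 : ∀ n x, 0 ≤ g n x) (hG : ∀ x, Tendsto (fun n => g n x) atTop (𝓝 (G x))) {c : ℕ → ℝ} {C : ℝ}
    (hc : Tendsto c atTop (𝓝 C)) (h : ∀ n, ∫ x, g n x ∂μ ≤ c n) :
    Integrable G μ ∧ ∫ x, G x ∂μ ≤ C := by
  have G0 : ∀ x, 0 ≤ G x := fun x => ge_of_tendsto' (hG x) fun n => g0 n x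
  have C0 : 0 ≤ C := ge_of_tendsto' hc fun n => (integral_nonneg (g0 n)).trans (h n)
  have m : AEStronglyMeasurable G μ :=
    aestronglyMeasurable_of_tendsto_ae atTop (fun n => (hg n).1) (.of_forall hG)
  have key : ∫⁻ x, ENNReal.ofReal (G x) ∂μ ≤ ENNReal.ofReal C := by
    calc _ = ∫⁻ x, liminf (fun n => ENNReal.ofReal (g n x)) atTop ∂μ :=
          lintegral_congr fun x => (ENNReal.tendsto_ofReal (hG x)).liminf_eq.symm
      _ ≤ liminf (fun n => ∫⁻ x, ENNReal.ofReal (g n x) ∂μ) atTop :=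
          lintegral_liminf_le' fun n => (hg n).1.aemeasurable.ennreal_ofReal
      _ ≤ liminf (fun n => ENNReal.ofReal (c n)) atTop := by
          refine liminf_le_liminf (.of_forall fun n => ?_)
          rw [← ofReal_integral_eq_lintegral_ofReal (hg n) (.of_forall (g0 n))]
          exact ENNReal.ofReal_le_ofReal (h n)
      _ = _ := (ENNReal.tendsto_ofReal hc).liminf_eq
  have i : Integrable G μ :=
    ⟨m, (hasFiniteIntegral_iff_ofReal (.of_forall G0)).2 (key.trans_lt ENNReal.ofReal_lt_top)⟩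
  rw [← ofReal_integral_eq_lintegral_ofReal i (.of_forall G0)] at key
  exact ⟨i, (ENNReal.ofReal_le_ofReal_iff C0).1 key⟩

theorem mono0 {μ : Measure S} {p g r : S → ℝ} (hg : Integrable g μ) (hr : Integrable r μ)
    (z : ∫ x, r x ∂μ = 0) (c : ℝ) (p0 : ∀ x, 0 ≤ p x) (h : ∀ x, p x ≤ g x + c * r x) :
    ∫ x, p x ∂μ ≤ ∫ x, g x ∂μ := by
  refine (integral_mono_of_nonneg (.of_forall p0) (hg.add (hr.const_mul c)) (.of_forall h)).trans_eq ?_
  simp only [Pi.add_apply]
  rw [integral_add hg (hr.const_mul c), integral_const_mul, z, mul_zero, add_zero]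

theorem norm_wt (φ : S → ℝ) (c : ℂ) (x : S) :
    ‖c * (Real.exp (-φ x) : ℂ)‖ = ‖c‖ * Real.exp (-φ x) := by
  rw [norm_mul, norm_real, Real.norm_of_nonneg (Real.exp_pos _).le]

theorem sq_test (hφ : D.Sm φ) (ha : D.Sm a) (hc : HasCompactSupport a) : D.Sq φ a :=
  (ha.normSq.mul hφ.neg.rexp).int
    ((hc.comp_left (g := fun z : ℂ => ‖z‖ ^ 2) (by simp)).mul_right)

theorem sq_of_le (hφ : D.Sm φ) (ha : D.Sq φ a) (hb : Continuous b) {c : ℝ}
    (h : ∀ x, ‖b x‖ ≤ c * ‖a x‖) : D.Sq φ b := by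
  refine (Integrable.const_mul ha (c ^ 2)).mono'
    ((hb.norm.pow 2).mul hφ.neg.rexp.cont).aestronglyMeasurable (.of_forall fun x => ?_)
  rw [Real.norm_of_nonneg (by positivity), ← mul_assoc, ← mul_pow]
  exact mul_le_mul_of_nonneg_right (pow_le_pow_left₀ (norm_nonneg _) (h x) 2) (Real.exp_pos _).le

theorem en_le (ha : D.Sq φ a) {c : ℝ} (h : ∀ x, ‖b x‖ ≤ c * ‖a x‖) :
    D.en φ b ≤ c ^ 2 * D.en φ a := by
  rw [en, en, ← integral_const_mul]
  refine integral_mono_of_nonneg (.of_forall fun x => by positivity) (Integrable.const_mul ha _)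
    (.of_forall fun x => ?_)
  simp only [← mul_assoc, ← mul_pow]
  exact mul_le_mul_of_nonneg_right (pow_le_pow_left₀ (norm_nonneg _) (h x) 2) (Real.exp_pos _).le

/-- Cauchy-Schwarz -/
theorem cs {E : Type} [NormedAddCommGroup E] [NormedSpace ℝ E] (ha : D.Sq φ a) (hb : D.Sq φ b)
    {F : S → E} (hF : AEStronglyMeasurable F D.μ)
    (h : ∀ x, ‖F x‖ ≤ ‖a x‖ * ‖b x‖ * Real.exp (-φ x)) :
    Integrable F D.μ ∧ ‖∫ x, F x ∂D.μ‖ ≤ √(D.en φ a) * √(D.en φ b) := by
  have p : ∀ (t : ℝ) x, 2 * t * ‖F x‖ ≤ t ^ 2 * (‖a x‖ ^ 2 * Real.exp (-φ x)) +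
      ‖b x‖ ^ 2 * Real.exp (-φ x) := fun t x => by
    have e0 := (Real.exp_pos (-φ x)).le
    rcases le_total t 0 with ht | ht
    · exact (mul_nonpos_of_nonpos_of_nonneg (by linarith) (norm_nonneg _)).trans (by positivity)
    · nlinarith [mul_le_mul_of_nonneg_left (h x) ht,
        mul_nonneg e0 (sq_nonneg (t * ‖a x‖ - ‖b x‖))]
  have i : Integrable F D.μ := (Integrable.add ha hb).mono' hF (.of_forall fun x => by
    have := p 1 x
    have := norm_nonneg (F x)
    simp only [Pi.add_apply]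
    nlinarith)
  refine ⟨i, (norm_integral_le_integral_norm _).trans
    (MP_9ff3e7_ag.F.Hz.quad (en_nonneg φ a) (Real.sqrt_nonneg _) fun t => ?_)⟩
  rw [Real.sq_sqrt (en_nonneg φ b), en, en, ← integral_const_mul, ← integral_const_mul,
    ← integral_add (Integrable.const_mul ha _) hb]
  exact integral_mono (i.norm.const_mul _) ((Integrable.const_mul ha _).add hb) (p t)

theorem re_int {F : S → ℂ} (hF : Integrable (fun x => F x * (Real.exp (-φ x) : ℂ)) D.μ) :
    Integrable (fun x => (F x).re * Real.exp (-φ x)) D.μ ∧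
      ∫ x, (F x).re * Real.exp (-φ x) ∂D.μ = (∫ x, F x * (Real.exp (-φ x) : ℂ) ∂D.μ).re := by
  simp only [← re_mul_ofReal]
  exact ⟨hF.re, integral_re hF⟩

/-- the real form of the divergence theorem for a test function -/
theorem re_vd (hφ : D.Sm φ) (h : D.Fl φ W) (ha : D.Sm a) (hc : HasCompactSupport a) :
    Integrable (fun x => (D.vd W a x).re * Real.exp (-φ x)) D.μ ∧
      ∫ x, (D.vd W a x).re * Real.exp (-φ x) ∂D.μ = 0 := by
  obtain ⟨i, e⟩ := re_int (((vd_sm h.sm ha).mul hφ.wt).int (vd_supp W hc).mul_right)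
  exact ⟨i, by rw [e, int_vd hφ h.sm h.div ha hc, zero_re]⟩

end Bo

open Bo

theorem Fl.seq (h : D.Fl φ W) : ∃ η : ℕ → S → ℝ, (∀ n, D.Sm (η n)) ∧
    (∀ n, HasCompactSupport (η n)) ∧ (∀ n y, 0 ≤ η n y ∧ η n y ≤ 1) ∧
    (∀ y, Tendsto (fun n => η n y) atTop (𝓝 1)) ∧
    Tendsto (fun n => D.en φ (D.vr W (η n))) atTop (𝓝 0) := by
  choose η η1 η2 η3 η4 η5 using fun n : ℕ =>
    h.cut _ (isCompact_compactCovering S n) (1 / ((n : ℝ) + 1)) (by positivity)
  refine ⟨η, η1, η2, η3, fun y => tendsto_const_nhds.congr' ?_,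
    squeeze_zero (fun n => en_nonneg _ _) η5 tendsto_one_div_add_atTop_nhds_zero_nat⟩
  obtain ⟨n, hn⟩ := exists_mem_compactCovering y
  filter_upwards [eventually_ge_atTop n] with m hm
  exact (η4 m y (compactCovering_subset S hm hn)).symm

theorem Fl.stokes (hφ : D.Sm φ) (h : D.Fl φ W) {a : S → ℂ} (ha : D.Sm a) (h2 : D.Sq φ a)
    (h1 : Integrable (fun x => D.vd W a x * (Real.exp (-φ x) : ℂ)) D.μ) :
    ∫ x, D.vd W a x * (Real.exp (-φ x) : ℂ) ∂D.μ = 0 := by
  obtain ⟨η, η1, η2, η3, η4, η5⟩ := h.seq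
  have l1 : Tendsto (fun n => ∫ x, (η n x : ℂ) * (D.vd W a x * (Real.exp (-φ x) : ℂ)) ∂D.μ) atTop
      (𝓝 (∫ x, D.vd W a x * (Real.exp (-φ x) : ℂ) ∂D.μ)) := by
    refine tendsto_integral_of_dominated_convergence _
      (fun n => (η1 n).ofReal.cont.aestronglyMeasurable.mul h1.1) h1.norm
      (fun n => .of_forall fun x => ?_) (.of_forall fun x => ?_)
    · rw [norm_mul, norm_real, Real.norm_of_nonneg (η3 n x).1]
      exact mul_le_of_le_one_left (norm_nonneg _) (η3 n x).2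
    · simpa using ((continuous_ofReal.tendsto 1).comp (η4 x)).mul_const
        (D.vd W a x * (Real.exp (-φ x) : ℂ))
  refine tendsto_nhds_unique l1 (squeeze_zero_norm (a := fun n => √(D.en φ (D.vr W (η n))) *
    √(D.en φ a)) (fun n => ?_) (by simpa using η5.sqrt.mul_const _))
  have s := vr_sm h.sm (η1 n)
  obtain ⟨i, b⟩ := cs (sq_test hφ s (vr_supp W (η2 n))) h2
    (F := fun x => D.vr W (η n) x * a x * (Real.exp (-φ x) : ℂ))
    ((s.mul ha).mul hφ.wt).cont.aestronglyMeasurable fun x => by rw [norm_wt, norm_mul]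
  have e := int_vd hφ h.sm h.div ((η1 n).ofReal.mul ha) (supp_real (η2 n)).mul_right
  simp only [vd_mul W (η1 n).ofReal ha, add_mul, mul_assoc (η n _ : ℂ)] at e
  have e := (integral_add i (((η1 n).ofReal.mul ((vd_sm h.sm ha).mul hφ.wt)).int
    (supp_real (η2 n)).mul_right)).symm.trans e
  rwa [eq_neg_of_add_eq_zero_right e, norm_neg]

theorem Bo.re_le (z w : ℂ) : -(z * conj w).re ≤ ‖z‖ * ‖w‖ := by
  refine (neg_le_abs _).trans ((abs_re_le_norm _).trans_eq ?_)
  rw [norm_mul, norm_conj]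

/-- Caccioppoli with a bounded factor `f` (take `f = 1`, or a cutoff in the base) -/
theorem Fl.cacc (hφ : D.Sm φ) (h : D.Fl φ W) {f u k : S → ℝ} (hf : D.Sm f) (hu : D.Sm u) {B M : ℝ}
    (fB : ∀ x, |f x| ≤ B) (f2 : D.Sq φ (D.vr W f)) (uM : ∀ x, f x ≠ 0 → 0 ≤ u x ∧ u x ≤ M)
    (k0 : ∀ x, 0 ≤ k x) (hk : ∀ x, f x ≠ 0 → -k x ≤ D.levi u x (W x))
    (ki : Integrable (fun x => f x ^ 2 * k x * Real.exp (-φ x)) D.μ) :
    D.Sq φ (fun x => f x * D.vr W u x) ∧
      D.en φ (fun x => f x * D.vr W u x) ≤ 2 * |M| * (∫ x, f x ^ 2 * k x * Real.exp (-φ x) ∂D.μ) +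
        8 * M ^ 2 * D.en φ (D.vr W f) ∧
      Integrable (fun x => f x ^ 2 * D.levi u x (W x) * Real.exp (-φ x)) D.μ ∧
      ∫ x, f x ^ 2 * D.levi u x (W x) * Real.exp (-φ x) ∂D.μ =
        -∫ x, (2 * f x * D.vr W f x * conj (D.vr W u x)).re * Real.exp (-φ x) ∂D.μ := by
  obtain ⟨η, η1, η2, η3, η4, η5⟩ := h.seq
  have sp := vr_sm h.sm hu
  have sq := vr_sm h.sm hf
  have sfp : D.Sm fun x => (f x : ℂ) * D.vr W u x := hf.ofReal.mul sp
  have rr := fun n => sq_test hφ (vr_sm h.sm (η1 n)) (vr_supp W (η2 n))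
  have e0 := fun x => (Real.exp_pos (-φ x)).le
  have dp : ∀ x, D.vd W (fun y => conj (D.vr W u y)) x = D.levi u x (W x) := fun x => by
    rw [vd_gp W h.hol hu, gp_self hu]
  have nf : ∀ x, ‖(f x : ℂ)‖ ≤ B := fun x => by rw [norm_real]; exact fB x
  have st1 : D.Sq φ (fun x => f x * D.vr W u x) ∧
      D.en φ (fun x => f x * D.vr W u x) ≤ 2 * |M| * (∫ x, f x ^ 2 * k x * Real.exp (-φ x) ∂D.μ) +
        8 * M ^ 2 * D.en φ (D.vr W f) := by
    refine fatou (g := fun n x => ‖(η n x : ℂ) * (f x * D.vr W u x)‖ ^ 2 * Real.exp (-φ x))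
      (fun n => sq_test hφ ((η1 n).ofReal.mul sfp) (supp_real (η2 n)).mul_right)
      (fun n x => by positivity) (fun x => ?_)
      (c := fun n => 2 * |M| * (∫ x, f x ^ 2 * k x * Real.exp (-φ x) ∂D.μ) +
        8 * M ^ 2 * (B ^ 2 * D.en φ (D.vr W (η n)) + D.en φ (D.vr W f))) ?_ fun n => ?_
    · simpa using ((((continuous_ofReal.tendsto 1).comp (η4 x)).mul_const
        ((f x : ℂ) * D.vr W u x)).norm.pow 2).mul_const (Real.exp (-φ x))
    · simpa using (((η5.const_mul (B ^ 2)).add_const (D.en φ (D.vr W f))).const_mul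
        (8 * M ^ 2)).const_add (2 * |M| * ∫ x, f x ^ 2 * k x * Real.exp (-φ x) ∂D.μ)
    have sF : D.Sm fun x => η n x * f x := (η1 n).mul hf
    have sG : D.Sm fun x => η n x * f x * (η n x * f x) * u x := (sF.mul sF).mul hu
    obtain ⟨i, z⟩ := re_vd hφ h (sG.ofReal.mul sp.conj)
      (supp_real (η2 n).mul_right.mul_right.mul_right).mul_right
    have i2 : Integrable (fun x => 8 * M ^ 2 * (B ^ 2 * (‖D.vr W (η n) x‖ ^ 2 * Real.exp (-φ x)) +
        ‖D.vr W f x‖ ^ 2 * Real.exp (-φ x))) D.μ :=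
      ((Integrable.const_mul (rr n) _).add f2).const_mul _
    rw [en, en, ← integral_const_mul, ← integral_const_mul,
      ← integral_add (Integrable.const_mul (rr n) _) f2, ← integral_const_mul,
      ← integral_add (ki.const_mul _) i2]
    refine mono0 ((ki.const_mul _).add i2) i z 2 (fun x => by positivity) fun x => ?_
    have d : D.vd W (fun y => ((η n y * f y * (η n y * f y) * u y : ℝ) : ℂ) * conj (D.vr W u y)) x =
        (2 * (u x : ℂ) * (D.vr W (η n) x * f x + η n x * D.vr W f x)) *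
          conj ((η n x : ℂ) * (f x * D.vr W u x)) +
        (η n x : ℂ) * (f x * D.vr W u x) * conj ((η n x : ℂ) * (f x * D.vr W u x)) +
        ((η n x * f x) ^ 2 * u x * D.levi u x (W x) : ℝ) := by
      rw [vd_mul W sG.ofReal sp.conj, dp]
      have := vr_mul W (sF.mul sF) hu x
      rw [vr_mul W sF sF, vr_mul W (η1 n) hf] at this
      rw [show D.vd W (fun y => ((η n y * f y * (η n y * f y) * u y : ℝ) : ℂ)) x = _ from this]
      simp only [map_mul, conj_ofReal]
      push_cast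
      ring
    simp only [d, add_re, mul_conj', ← ofReal_pow, ofReal_re]
    set P := (η n x : ℂ) * (f x * D.vr W u x) with hP
    by_cases h0 : f x = 0
    · have : P = 0 := by simp [hP, h0]
      simp only [this, h0]
      simp
      positivity
    obtain ⟨u0, u1⟩ := uM x h0
    have b1 := re_le (2 * (u x : ℂ) * (D.vr W (η n) x * f x + η n x * D.vr W f x)) P
    have b2 : ‖2 * (u x : ℂ) * (D.vr W (η n) x * f x + η n x * D.vr W f x)‖ ≤
        2 * M * (‖D.vr W (η n) x‖ * B + ‖D.vr W f x‖) := by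
      rw [norm_mul, norm_mul, norm_real, Real.norm_of_nonneg u0, Complex.norm_two]
      refine mul_le_mul (by linarith) ((norm_add_le _ _).trans (add_le_add ?_ ?_)) (norm_nonneg _)
        (by linarith)
      · rw [norm_mul]
        exact mul_le_mul_of_nonneg_left (nf x) (norm_nonneg _)
      · rw [norm_mul, norm_real, Real.norm_of_nonneg (η3 n x).1]
        exact mul_le_of_le_one_left (norm_nonneg _) (η3 n x).2
    have b3 : -(|M| * (f x ^ 2 * k x)) ≤ (η n x * f x) ^ 2 * u x * D.levi u x (W x) := by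
      have c1 : (η n x * f x) ^ 2 * u x ≤ |M| * f x ^ 2 := by
        rw [mul_pow, mul_comm |M|]
        exact mul_le_mul (mul_le_of_le_one_left (sq_nonneg _) (pow_le_one₀ (η3 n x).1 (η3 n x).2))
          (u1.trans (le_abs_self M)) u0 (sq_nonneg _)
      nlinarith [mul_le_mul_of_nonneg_left (hk x h0) (mul_nonneg (sq_nonneg (η n x * f x)) u0),
        mul_le_mul_of_nonneg_right c1 (k0 x)]
    have b4 := mul_le_mul_of_nonneg_right b2 (norm_nonneg P)
    have b5 : ‖P‖ ^ 2 ≤ 2 * |M| * (f x ^ 2 * k x) +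
        8 * M ^ 2 * (B ^ 2 * ‖D.vr W (η n) x‖ ^ 2 + ‖D.vr W f x‖ ^ 2) +
        2 * ((2 * (u x : ℂ) * (D.vr W (η n) x * f x + η n x * D.vr W f x) * conj P).re + ‖P‖ ^ 2 +
          (η n x * f x) ^ 2 * u x * D.levi u x (W x)) := by
      nlinarith [sq_nonneg (‖P‖ - 2 * M * (‖D.vr W (η n) x‖ * B + ‖D.vr W f x‖)),
        mul_nonneg (sq_nonneg M) (sq_nonneg (‖D.vr W (η n) x‖ * B - ‖D.vr W f x‖))]
    have := mul_le_mul_of_nonneg_right b5 (e0 x)
    linarith
  have sf2 : D.Sm fun x => f x * f x := hf.mul hf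
  have sa : D.Sm fun x => ((f x * f x : ℝ) : ℂ) * conj (D.vr W u x) := sf2.ofReal.mul sp.conj
  have da : ∀ x, D.vd W (fun x => ((f x * f x : ℝ) : ℂ) * conj (D.vr W u x)) x =
      2 * f x * D.vr W f x * conj (D.vr W u x) + (f x ^ 2 * D.levi u x (W x) : ℝ) := fun x => by
    rw [vd_mul W sf2.ofReal sp.conj, dp,
      show D.vd W (fun y => ((f y * f y : ℝ) : ℂ)) x = _ from vr_mul W hf hf x]
    push_cast
    ring
  have st2 : Integrable (fun x => f x ^ 2 * D.levi u x (W x) * Real.exp (-φ x)) D.μ := by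
    refine ((fatou (G := fun x => f x ^ 2 * (D.levi u x (W x) + k x) * Real.exp (-φ x))
      (g := fun n x => η n x * (f x ^ 2 * (D.levi u x (W x) + k x) * Real.exp (-φ x)))
      (fun n => ?_) (fun n x => mul_nonneg (η3 n x).1 (mul_nonneg ?_ (e0 x)))
      (fun x => by simpa using (η4 x).mul_const _)
      (c := fun n => (∫ x, f x ^ 2 * k x * Real.exp (-φ x) ∂D.μ) +
        (B ^ 2 * D.en φ (D.vr W (η n)) + (D.en φ (D.vr W f) +
          2 * D.en φ fun x => f x * D.vr W u x)))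
      (((η5.const_mul (B ^ 2)).add_const _).const_add _) fun n => ?_).1.sub ki).congr
      (.of_forall fun x => by simp only [Pi.sub_apply]; ring)
    · refine (((((η1 n).mul (sf2.mul ((lv_sm hu h.sm).mul hφ.neg.rexp))).int
        (η2 n).mul_right).add (ki.bdd_mul (c := 1) (η1 n).cont.aestronglyMeasurable
          (.of_forall fun x => ?_))).congr (.of_forall fun x => by simp only [Pi.add_apply]; ring))
      rw [Real.norm_of_nonneg (η3 n x).1]
      exact (η3 n x).2
    · by_cases h0 : f x = 0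
      · simp [h0]
      · exact mul_nonneg (sq_nonneg _) (by linarith [hk x h0])
    obtain ⟨i, z⟩ := re_vd hφ h ((η1 n).ofReal.mul sa) (supp_real (η2 n)).mul_right
    have i3 : Integrable (fun x => ‖D.vr W f x‖ ^ 2 * Real.exp (-φ x) +
        2 * (‖(f x : ℂ) * D.vr W u x‖ ^ 2 * Real.exp (-φ x))) D.μ :=
      Integrable.add f2 (Integrable.const_mul st1.1 2)
    have i2 : Integrable (fun x => B ^ 2 * (‖D.vr W (η n) x‖ ^ 2 * Real.exp (-φ x)) +
        (‖D.vr W f x‖ ^ 2 * Real.exp (-φ x) +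
          2 * (‖(f x : ℂ) * D.vr W u x‖ ^ 2 * Real.exp (-φ x)))) D.μ :=
      (Integrable.const_mul (rr n) (B ^ 2)).add i3
    rw [en, en, en, ← integral_const_mul, ← integral_const_mul,
      ← integral_add f2 (Integrable.const_mul st1.1 2),
      ← integral_add (Integrable.const_mul (rr n) _) i3, ← integral_add ki i2]
    refine mono0 (ki.add i2) i z 1 (fun x => mul_nonneg (η3 n x).1 (mul_nonneg ?_ (e0 x)))
      fun x => ?_
    · by_cases h0 : f x = 0
      · simp [h0]
      · exact mul_nonneg (sq_nonneg _) (by linarith [hk x h0])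
    have d : D.vd W (fun y => (η n y : ℂ) * (((f y * f y : ℝ) : ℂ) * conj (D.vr W u y))) x =
        D.vr W (η n) x * f x * conj ((f x : ℂ) * D.vr W u x) +
        2 * η n x * D.vr W f x * conj ((f x : ℂ) * D.vr W u x) +
        (η n x * (f x ^ 2 * D.levi u x (W x)) : ℝ) := by
      rw [vd_mul W (η1 n).ofReal sa, da]
      simp only [map_mul, conj_ofReal, vr]
      push_cast
      ring
    simp only [d, add_re, ofReal_re]
    set P := (f x : ℂ) * D.vr W u x with hP
    have b1 := re_le (D.vr W (η n) x * f x) P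
    have b2 := re_le (2 * η n x * D.vr W f x) P
    have b3 : ‖D.vr W (η n) x * f x‖ ≤ ‖D.vr W (η n) x‖ * B := by
      rw [norm_mul]
      exact mul_le_mul_of_nonneg_left (nf x) (norm_nonneg _)
    have b4 : ‖2 * (η n x : ℂ) * D.vr W f x‖ ≤ 2 * ‖D.vr W f x‖ := by
      rw [norm_mul, norm_mul, norm_real, Real.norm_of_nonneg (η3 n x).1, Complex.norm_two]
      exact mul_le_mul_of_nonneg_right (by linarith [(η3 n x).2]) (norm_nonneg _)
    have b5 : η n x * (f x ^ 2 * (D.levi u x (W x) + k x)) ≤ f x ^ 2 * k x +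
        (B ^ 2 * ‖D.vr W (η n) x‖ ^ 2 + (‖D.vr W f x‖ ^ 2 + 2 * ‖P‖ ^ 2)) +
        ((D.vr W (η n) x * f x * conj P).re + (2 * η n x * D.vr W f x * conj P).re +
          η n x * (f x ^ 2 * D.levi u x (W x))) := by
      nlinarith [mul_le_mul_of_nonneg_right b3 (norm_nonneg P),
        mul_le_mul_of_nonneg_right b4 (norm_nonneg P), sq_nonneg (‖D.vr W (η n) x‖ * B - ‖P‖),
        sq_nonneg (‖D.vr W f x‖ - ‖P‖), sq_nonneg (‖D.vr W (η n) x‖ * B), sq_nonneg ‖P‖,
        mul_le_of_le_one_left (mul_nonneg (sq_nonneg (f x)) (k0 x)) (η3 n x).2]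
    have := mul_le_mul_of_nonneg_right b5 (e0 x)
    linarith
  refine ⟨st1.1, st1.2, st2, ?_⟩
  have i1 : Integrable (fun x => 2 * f x * D.vr W f x * conj (D.vr W u x) *
      (Real.exp (-φ x) : ℂ)) D.μ :=
    (cs (sq_of_le hφ f2 ((sm_const 2).mul sq).cont (c := 2) fun x => by simp) st1.1
      (((((sm_const 2).mul hf.ofReal).mul sq).mul sp.conj).mul hφ.wt).cont.aestronglyMeasurable
      fun x => by
        rw [norm_wt]
        simp only [norm_mul, norm_conj]
        exact le_of_eq (by ring)).1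
  have i2 : Integrable (fun x => D.vd W (fun x => ((f x * f x : ℝ) : ℂ) * conj (D.vr W u x)) x *
      (Real.exp (-φ x) : ℂ)) D.μ := by
    simp only [da, add_mul, ← ofReal_mul]
    exact i1.add st2.ofReal
  have z := (re_int i2).2
  rw [h.stokes hφ sa (sq_of_le hφ st1.1 sa.cont (c := B) fun x => by
    simp only [ofReal_mul, norm_mul, norm_conj, mul_assoc]
    exact mul_le_mul_of_nonneg_right (nf x) (by positivity)) i2] at z
  simp only [da, add_re, ofReal_re, add_mul, zero_re] at z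
  rw [integral_add (re_int i1).1 st2] at z
  exact eq_neg_of_add_eq_zero_right z

/-- Green -/
theorem Fl.green (hφ : D.Sm φ) (h : D.Fl φ W) {f u k : S → ℝ} (hf : D.Sm f) (hu : D.Sm u) {B M : ℝ}
    (fB : ∀ x, |f x| ≤ B) (f2 : D.Sq φ (D.vr W f)) (uM : ∀ x, x ∈ tsupport f → 0 ≤ u x ∧ u x ≤ M)
    (k0 : ∀ x, 0 ≤ k x) (hk : ∀ x, f x ≠ 0 → -k x ≤ D.levi u x (W x))
    (ki : Integrable (fun x => f x ^ 2 * k x * Real.exp (-φ x)) D.μ)
    (li : Integrable (fun x => D.levi (fun z => f z ^ 2) x (W x) * Real.exp (-φ x)) D.μ) :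
    ∫ x, f x ^ 2 * D.levi u x (W x) * Real.exp (-φ x) ∂D.μ =
      ∫ x, u x * D.levi (fun z => f z ^ 2) x (W x) * Real.exp (-φ x) ∂D.μ := by
  obtain ⟨c1, -, -, c4⟩ := h.cacc hφ hf hu fB f2 (fun x hx => uM x (subset_tsupport _ hx)) k0 hk ki
  have sp := vr_sm h.sm hu
  have sq := vr_sm h.sm hf
  have sf2 : D.Sm fun x => f x ^ 2 := hf.comp (g := fun r : ℝ => r ^ 2) (contDiff_id.pow 2)
  have v2 : ∀ x, D.vr W (fun z => f z ^ 2) x = 2 * f x * D.vr W f x := fun x => by
    simp only [pow_two]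
    rw [vr_mul W hf hf]
    ring
  have sa : D.Sm fun x => (u x : ℂ) * conj (D.vr W (fun z => f z ^ 2) x) :=
    hu.ofReal.mul (vr_sm h.sm sf2).conj
  have da : ∀ x, D.vd W (fun x => (u x : ℂ) * conj (D.vr W (fun z => f z ^ 2) x)) x =
      conj (2 * f x * D.vr W f x * conj (D.vr W u x)) +
        (u x * D.levi (fun z => f z ^ 2) x (W x) : ℝ) := fun x => by
    rw [vd_mul W hu.ofReal (vr_sm h.sm sf2).conj, vd_gp W h.hol sf2, gp_self sf2, v2, map_mul _ _
      (conj _), conj_conj, ofReal_mul, mul_comm (conj _)]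
    rfl
  have l0 : ∀ x, x ∉ tsupport f → D.levi (fun z => f z ^ 2) x (W x) = 0 := fun x hx => by
    rw [levi_congr (g := fun _ => 0) ((notMem_tsupport_iff_eventuallyEq.1 hx).mono fun z hz => by
      simp [hz]), levi_coord (sm_const _)]
    simp [show ∀ k, D.op I k (fun _ => (0 : ℂ)) = fun _ => 0 from fun k => funext (op_const I k 0),
      op_const]
  have i0 : Integrable (fun x => u x * D.levi (fun z => f z ^ 2) x (W x) * Real.exp (-φ x)) D.μ := by
    refine (li.norm.const_mul |M|).mono' ((hu.mul (lv_sm sf2 h.sm)).mul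
      hφ.neg.rexp).cont.aestronglyMeasurable (.of_forall fun x => ?_)
    by_cases hx : x ∈ tsupport f
    · rw [mul_assoc, norm_mul, Real.norm_of_nonneg (uM x hx).1]
      exact mul_le_mul_of_nonneg_right ((uM x hx).2.trans (le_abs_self M)) (norm_nonneg _)
    · simp [l0 x hx]
  have i1 : Integrable (fun x => conj (2 * f x * D.vr W f x * conj (D.vr W u x)) *
      (Real.exp (-φ x) : ℂ)) D.μ :=
    (cs (sq_of_le hφ f2 ((sm_const 2).mul sq).cont (c := 2) fun x => by simp) c1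
      (((((sm_const 2).mul hf.ofReal).mul sq).mul sp.conj).conj.mul hφ.wt).cont.aestronglyMeasurable
      fun x => by
        rw [norm_wt]
        simp only [norm_mul, norm_conj]
        exact le_of_eq (by ring)).1
  have i2 : Integrable (fun x => D.vd W (fun x => (u x : ℂ) * conj (D.vr W (fun z => f z ^ 2) x)) x *
      (Real.exp (-φ x) : ℂ)) D.μ := by
    simp only [da, add_mul, ← ofReal_mul]
    exact i1.add i0.ofReal
  have z := (re_int i2).2
  rw [h.stokes hφ sa (sq_of_le hφ f2 sa.cont (c := |M| * (2 * B)) fun x => by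
    rw [v2]
    by_cases h0 : f x = 0
    · simp only [h0, ofReal_zero, mul_zero, zero_mul, map_zero, norm_zero]
      have := (abs_nonneg _).trans (fB x)
      positivity
    · obtain ⟨u0, u1⟩ := uM x (subset_tsupport _ h0)
      simp only [norm_mul, norm_conj, norm_real, Real.norm_eq_abs, Complex.norm_two, ← mul_assoc,
        abs_of_nonneg u0]
      refine mul_le_mul_of_nonneg_right (mul_le_mul (by linarith [le_abs_self M]) (fB x)
        (abs_nonneg _) (by positivity)) (norm_nonneg _)) i2] at z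
  simp only [da, add_re, ofReal_re, add_mul, zero_re] at z
  rw [integral_add (re_int i1).1 i0] at z
  simp only [conj_re] at z
  rw [c4]
  exact (eq_neg_of_add_eq_zero_right z).symm

end RD

end

end Pool.Agent.Lib.MP_5c318e_ag
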