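import Pool.Agent.Lib.MP_5c318e_ag.Bo.TA

/-! The tangency form of a nonnegative function along a holomorphic divergence free field. -/

set_option autoImplicit false
set_option linter.unusedSectionVars false

namespace Pool.Agent.Lib.MP_5c318e_ag

open MeasureTheory Set Filter Topology Complex
open scoped ContDiff ComplexConjugate
open Pool.Agent.Lib.MP_9ff3e7_ag

noncomputable section

namespace RD

variable {ι : Type} [Fintype ι] [DecidableEq ι] {S : Type} [TopologicalSpace S] [MeasurableSpace S]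
  [BorelSpace S] [T2Space S] [SigmaCompactSpace S] {D : RD ι S}
  {φ y : S → ℝ} {W X : S → ι → ℂ}

namespace Bo

theorem ex_smooth (R : ℝ) : ContDiff ℝ ∞ fun r : ℝ => Real.exp (-r / R) :=
  Real.contDiff_exp.comp (contDiff_neg.div_const R)

theorem ex_deriv (R : ℝ) :
    deriv (fun r : ℝ => Real.exp (-r / R)) = fun r => -R⁻¹ * Real.exp (-r / R) := by
  funext r
  rw [(((hasDerivAt_neg' r).div_const R).exp).deriv]
  ring

theorem ex_deriv2 (R : ℝ) : deriv (deriv fun r : ℝ => Real.exp (-r / R)) =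
    fun r => R⁻¹ ^ 2 * Real.exp (-r / R) := by
  funext r
  rw [ex_deriv, deriv_const_mul_field, ex_deriv]
  ring

theorem ex_le {r R : ℝ} (r0 : 0 ≤ r) (R0 : 0 < R) : Real.exp (-r / R) ≤ 1 :=
  Real.exp_le_one_iff.2 (div_nonpos_of_nonpos_of_nonneg (neg_nonpos.2 r0) R0.le)

theorem levi_ex (W : S → ι → ℂ) (hy : D.Sm y) (R : ℝ) (x : S) :
    D.levi (fun z => Real.exp (-y z / R)) x (W x) = -R⁻¹ * Real.exp (-y x / R) * D.levi y x (W x) +
      R⁻¹ ^ 2 * Real.exp (-y x / R) * ‖D.vr W y x‖ ^ 2 := by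
  rw [levi_vr W (ex_smooth R) hy, ex_deriv2, ex_deriv]

theorem sq_const (φ : S → ℝ) (W : S → ι → ℂ) (c : ℝ) : D.Sq φ (D.vr W fun _ => c) := by
  simp [Sq, vr_const]

theorem ex_int {R : ℝ} (R0 : 0 < R) (hy : D.Sm y) (y0 : ∀ x, 0 ≤ y x) {g : S → ℝ}
    (hg : Integrable g D.μ) : Integrable (fun x => Real.exp (-y x / R) * g x) D.μ :=
  hg.bdd_mul (c := 1) (hy.comp (ex_smooth R)).cont.aestronglyMeasurable (.of_forall fun x => by
    rw [Real.norm_of_nonneg (Real.exp_pos _).le]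
    exact ex_le (y0 x) R0)

theorem ex_lim (hy : D.Sm y) (y0 : ∀ x, 0 ≤ y x) {E : Type} [NormedAddCommGroup E]
    [NormedSpace ℝ E] {g : S → E} (hg : Integrable g D.μ) :
    Tendsto (fun R : ℝ => ∫ x, Real.exp (-y x / R) • g x ∂D.μ) atTop (𝓝 (∫ x, g x ∂D.μ)) := by
  refine tendsto_integral_filter_of_dominated_convergence _
    (.of_forall fun R => (hy.comp (ex_smooth R)).cont.aestronglyMeasurable.smul hg.1) ?_ hg.norm
    (.of_forall fun x => ?_)
  · filter_upwards [eventually_gt_atTop 0] with R R0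
    refine .of_forall fun x => ?_
    rw [norm_smul, Real.norm_of_nonneg (Real.exp_pos _).le]
    exact mul_le_of_le_one_left (norm_nonneg _) (ex_le (y0 x) R0)
  · have : Tendsto (fun R : ℝ => Real.exp (-y x / R)) atTop (𝓝 1) := by
      simpa using (tendsto_const_nhds.div_atTop tendsto_id).rexp
    simpa using this.smul_const (g x)

end Bo

open Bo

/-- a bounded function whose Levi form along `W` is bounded below has Levi integral zero -/
theorem Fl.levi_zero (hφ : D.Sm φ) (h : D.Fl φ W) {u k : S → ℝ} (hu : D.Sm u) {M : ℝ}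
    (uM : ∀ x, 0 ≤ u x ∧ u x ≤ M) (k0 : ∀ x, 0 ≤ k x) (hk : ∀ x, -k x ≤ D.levi u x (W x))
    (ki : Integrable (fun x => k x * Real.exp (-φ x)) D.μ) :
    D.Sq φ (D.vr W u) ∧ D.en φ (D.vr W u) ≤ 2 * |M| * ∫ x, k x * Real.exp (-φ x) ∂D.μ ∧
      Integrable (fun x => D.levi u x (W x) * Real.exp (-φ x)) D.μ ∧
      ∫ x, D.levi u x (W x) * Real.exp (-φ x) ∂D.μ = 0 := by
  have := h.cacc hφ (f := fun _ => 1) (sm_const 1) hu (B := 1) (fun _ => by simp) (sq_const φ W 1)
    (fun x _ => uM x) k0 (fun x _ => hk x) (by simpa using ki)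
  simpa [vr_const, en] using this

/-- T1 at level `R` -/
theorem Fl.t1 (hφ : D.Sm φ) (h : D.Fl φ W) (hy : D.Sm y) (y0 : ∀ x, 0 ≤ y x)
    (yi : Integrable (fun x => D.levi y x (W x) * Real.exp (-φ x)) D.μ) {R : ℝ} (R0 : 0 < R) :
    Integrable (fun x => Real.exp (-y x / R) * ‖D.vr W y x‖ ^ 2 * Real.exp (-φ x)) D.μ ∧
      ∫ x, Real.exp (-y x / R) * ‖D.vr W y x‖ ^ 2 * Real.exp (-φ x) ∂D.μ =
        R * ∫ x, Real.exp (-y x / R) * D.levi y x (W x) * Real.exp (-φ x) ∂D.μ := by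
  have i0 : Integrable (fun x => Real.exp (-y x / R) * D.levi y x (W x) * Real.exp (-φ x)) D.μ := by
    simpa only [mul_assoc] using ex_int R0 hy y0 yi
  obtain ⟨-, -, i, z⟩ := h.levi_zero hφ (hy.comp (ex_smooth R)) (M := 1)
    (fun x => ⟨(Real.exp_pos _).le, ex_le (y0 x) R0⟩) (k := fun x => R⁻¹ * |D.levi y x (W x)|)
    (fun x => by positivity) (fun x => by
      rw [levi_ex W hy]
      have e0 := (Real.exp_pos (-y x / R)).le
      have : Real.exp (-y x / R) * D.levi y x (W x) ≤ |D.levi y x (W x)| :=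
        (mul_le_mul_of_nonneg_left (le_abs_self _) e0).trans
          (mul_le_of_le_one_left (abs_nonneg _) (ex_le (y0 x) R0))
      nlinarith [mul_le_mul_of_nonneg_left this (inv_pos.2 R0).le,
        mul_nonneg (mul_nonneg (sq_nonneg R⁻¹) e0) (sq_nonneg ‖D.vr W y x‖)])
    ((yi.abs.const_mul R⁻¹).congr (.of_forall fun x => by
      simp only [abs_mul, Real.abs_exp, mul_assoc]))
  have e : ∀ x, Real.exp (-y x / R) * ‖D.vr W y x‖ ^ 2 * Real.exp (-φ x) =
      R ^ 2 * (D.levi (fun z => Real.exp (-y z / R)) x (W x) * Real.exp (-φ x)) +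
        R * (Real.exp (-y x / R) * D.levi y x (W x) * Real.exp (-φ x)) := fun x => by
    rw [levi_ex W hy]
    field_simp
    ring
  simp only [e]
  refine ⟨(i.const_mul _).add (i0.const_mul _), ?_⟩
  rw [integral_add (i.const_mul _) (i0.const_mul _), integral_const_mul, integral_const_mul, z,
    mul_zero, zero_add]

theorem Fl.t1_lim (hφ : D.Sm φ) (h : D.Fl φ W) (hy : D.Sm y) (y0 : ∀ x, 0 ≤ y x)
    (yi : Integrable (fun x => D.levi y x (W x) * Real.exp (-φ x)) D.μ) :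
    Tendsto (fun R : ℝ => R⁻¹ * ∫ x, Real.exp (-y x / R) * ‖D.vr W y x‖ ^ 2 * Real.exp (-φ x) ∂D.μ)
      atTop (𝓝 (∫ x, D.levi y x (W x) * Real.exp (-φ x) ∂D.μ)) := by
  refine (ex_lim hy y0 yi).congr' ?_
  filter_upwards [eventually_gt_atTop 0] with R R0
  rw [(h.t1 hφ hy y0 yi R0).2, inv_mul_cancel_left₀ R0.ne']
  simp only [smul_eq_mul, mul_assoc]

theorem Fl.q_nonneg (hφ : D.Sm φ) (h : D.Fl φ W) (hy : D.Sm y) (y0 : ∀ x, 0 ≤ y x)
    (yi : Integrable (fun x => D.levi y x (W x) * Real.exp (-φ x)) D.μ) :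
    0 ≤ ∫ x, D.levi y x (W x) * Real.exp (-φ x) ∂D.μ := by
  refine ge_of_tendsto (h.t1_lim hφ hy y0 yi) ?_
  filter_upwards [eventually_gt_atTop 0] with R R0
  exact mul_nonneg (inv_pos.2 R0).le (integral_nonneg fun x => by positivity)

end RD

end

end Pool.Agent.Lib.MP_5c318e_ag
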