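import Pool.Agent.Lib.MP_5c318e_ag.RD.HDefs

/-! Holomorphic divergence free vector fields on a Riemann domain: definitions and calculus. -/

set_option autoImplicit false
set_option linter.unusedSectionVars false

namespace Pool.Agent.Lib.MP_5c318e_ag

open MeasureTheory Set Filter Topology Complex
open scoped ContDiff ComplexConjugate
open Pool.Agent.Lib.MP_9ff3e7_ag

noncomputable section

namespace RD

variable {ι : Type} [Fintype ι] [DecidableEq ι] {S : Type} [TopologicalSpace S] [MeasurableSpace S]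
  [BorelSpace S] [T2Space S] [SigmaCompactSpace S] {D : RD ι S}

variable (D) in
/-- the derivative of a real function along the field `W` -/
def vr (W : S → ι → ℂ) (u : S → ℝ) : S → ℂ := D.vd W fun y => (u y : ℂ)

variable (D) in
/-- square integrable for the weight `φ` -/
def Sq (φ : S → ℝ) (a : S → ℂ) : Prop := Integrable (fun x => ‖a x‖ ^ 2 * Real.exp (-φ x)) D.μ

variable (D) in
/-- the weighted energy -/
def en (φ : S → ℝ) (a : S → ℂ) : ℝ := ∫ x, ‖a x‖ ^ 2 * Real.exp (-φ x) ∂D.μ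

variable (D) in
/-- holomorphic fields, divergence free for `exp (-φ)`, with cutoff functions of small energy -/
structure Fl (φ : S → ℝ) (W : S → ι → ℂ) : Prop where
  hol : ∀ j, D.Hol fun x => W x j
  div : ∀ x, D.dv W x = D.vd W (fun y => (φ y : ℂ)) x
  cut : ∀ K, IsCompact K → ∀ θ : ℝ, 0 < θ → ∃ η : S → ℝ, D.Sm η ∧ HasCompactSupport η ∧
    (∀ y, 0 ≤ η y ∧ η y ≤ 1) ∧ (∀ y ∈ K, η y = 1) ∧ D.en φ (D.vr W η) ≤ θ

variable {Φ φ u : S → ℝ} {W X : S → ι → ℂ} {a b : S → ℂ}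

theorem Fl.sm (h : D.Fl φ W) (j : ι) : D.Sm fun x => W x j := (h.hol j).sm

namespace Bo

theorem en_nonneg (φ : S → ℝ) (a : S → ℂ) : 0 ≤ D.en φ a :=
  integral_nonneg fun _ => by positivity

theorem hol_op (ha : D.Hol a) (j : ι) (x : S) : D.op I j a x = 0 := by
  rw [op_dbar, dbar]
  exact F.dbar_holo (ha x) _

theorem hol_apply (hW : D.Hol W) (j : ι) : D.Hol fun x => W x j := fun x =>
  differentiableAt_pi.1 (hW x) j

theorem vd_sm (hW : ∀ j, D.Sm fun x => W x j) (ha : D.Sm a) : D.Sm (D.vd W a) :=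
  sm_sum _ fun j _ => (hW j).mul (ha.op _ j)

theorem vr_sm (hW : ∀ j, D.Sm fun x => W x j) (hu : D.Sm u) : D.Sm (D.vr W u) :=
  vd_sm hW hu.ofReal

theorem vd_zero (W : S → ι → ℂ) {x : S} (hx : x ∉ tsupport a) : D.vd W a x = 0 := by
  simp [vd, op_zero _ _ hx]

theorem vd_supp (W : S → ι → ℂ) (hc : HasCompactSupport a) : HasCompactSupport (D.vd W a) :=
  HasCompactSupport.intro hc fun _ hx => vd_zero W hx

theorem supp_real (hc : HasCompactSupport u) : HasCompactSupport fun y => (u y : ℂ) :=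
  hc.comp_left (g := fun r : ℝ => (r : ℂ)) ofReal_zero

theorem vr_supp (W : S → ι → ℂ) (hc : HasCompactSupport u) : HasCompactSupport (D.vr W u) :=
  vd_supp W (supp_real hc)

theorem vd_const (W : S → ι → ℂ) (c : ℂ) (x : S) : D.vd W (fun _ => c) x = 0 := by
  simp [vd, op_const]

theorem vr_const (W : S → ι → ℂ) (c : ℝ) (x : S) : D.vr W (fun _ => c) x = 0 := vd_const W _ x

theorem vd_add (W : S → ι → ℂ) (ha : D.Sm a) (hb : D.Sm b) (x : S) :
    D.vd W (fun y => a y + b y) x = D.vd W a x + D.vd W b x := by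
  simp only [vd, op_add _ _ ha hb, mul_add, Finset.sum_add_distrib]

theorem vd_sub (W : S → ι → ℂ) (ha : D.Sm a) (hb : D.Sm b) (x : S) :
    D.vd W (fun y => a y - b y) x = D.vd W a x - D.vd W b x := by
  simp only [vd, op_sub _ _ ha hb, mul_sub, Finset.sum_sub_distrib]

theorem vd_mul (W : S → ι → ℂ) (ha : D.Sm a) (hb : D.Sm b) (x : S) :
    D.vd W (fun y => a y * b y) x = D.vd W a x * b x + a x * D.vd W b x := by
  simp only [vd, op_mul _ _ ha hb, mul_add, Finset.sum_add_distrib, Finset.sum_mul, Finset.mul_sum]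
  congr 1 <;> exact Finset.sum_congr rfl fun j _ => by ring

theorem vr_comp (W : S → ι → ℂ) {χ : ℝ → ℝ} (hχ : ContDiff ℝ ∞ χ) (hu : D.Sm u) (x : S) :
    D.vr W (fun y => χ (u y)) x = (deriv χ (u x) : ℝ) * D.vr W u x := by
  simp only [vr, vd, op_real _ _ hχ hu, Finset.mul_sum]
  exact Finset.sum_congr rfl fun j _ => by ring

theorem vr_mul (W : S → ι → ℂ) {v : S → ℝ} (hu : D.Sm u) (hv : D.Sm v) (x : S) :
    D.vr W (fun y => u y * v y) x = D.vr W u x * v x + u x * D.vr W v x := by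
  simp only [vr, ofReal_mul]
  exact vd_mul W hu.ofReal hv.ofReal x

theorem vr_add (W : S → ι → ℂ) {v : S → ℝ} (hu : D.Sm u) (hv : D.Sm v) (x : S) :
    D.vr W (fun y => u y + v y) x = D.vr W u x + D.vr W v x := by
  simp only [vr, ofReal_add]
  exact vd_add W hu.ofReal hv.ofReal x

theorem vr_sub (W : S → ι → ℂ) {v : S → ℝ} (hu : D.Sm u) (hv : D.Sm v) (x : S) :
    D.vr W (fun y => u y - v y) x = D.vr W u x - D.vr W v x := by
  simp only [vr, ofReal_sub]
  exact vd_sub W hu.ofReal hv.ofReal x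

theorem vd_conj (W : S → ι → ℂ) (ha : D.Sm a) (x : S) :
    D.vd W (fun y => conj (a y)) x = conj (D.dbar a x (W x)) := by
  simp only [vd, dbar_coord, op_conj _ _ ha, map_sum, map_mul, conj_conj, map_neg, conj_I, neg_neg]
  exact Finset.sum_congr rfl fun j _ => mul_comm _ _

theorem vd_conj_hol (W : S → ι → ℂ) (ha : D.Hol a) (x : S) :
    D.vd W (fun y => conj (a y)) x = 0 := by
  simp [vd_conj W ha.sm, dbar_coord, hol_op ha]

theorem dbar_vr (W : S → ι → ℂ) (hu : D.Sm u) (x : S) :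
    D.dbar (fun y => (u y : ℂ)) x (W x) = conj (D.vr W u x) := by
  have := vd_conj W hu.ofReal x
  simp only [conj_ofReal] at this
  rw [vr, this, conj_conj]

theorem levi_vr (W : S → ι → ℂ) {χ : ℝ → ℝ} (hχ : ContDiff ℝ ∞ χ) (hu : D.Sm u) (x : S) :
    D.levi (fun y => χ (u y)) x (W x) = deriv χ (u x) * D.levi u x (W x) +
      deriv (deriv χ) (u x) * ‖D.vr W u x‖ ^ 2 := by
  rw [levi_comp hu x (hχ.contDiffAt.of_le (by norm_cast)), dbar_vr W hu, norm_conj]

theorem gp_eq (u : S → ℝ) (x : S) (ξ ζ : ι → ℂ) : D.gp u x ξ ζ =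
    ∑ j, ∑ k, D.op (-I) j (D.op I k fun y => (u y : ℂ)) x * ξ j * conj (ζ k) := by
  rw [gp, Finset.sum_comm]
  simp only [gm, Finset.sum_mul]

theorem gp_conj (hu : D.Sm u) (x : S) (ξ ζ : ι → ℂ) : conj (D.gp u x ξ ζ) = D.gp u x ζ ξ := by
  rw [gp_eq, gp_eq, Finset.sum_comm, map_sum]
  refine Finset.sum_congr rfl fun j _ => ?_
  rw [map_sum]
  refine Finset.sum_congr rfl fun k _ => ?_
  rw [map_mul, map_mul, conj_conj, op_comm (-I) k I j hu.ofReal, conj_hess hu]
  ring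

theorem gp_re (hu : D.Sm u) (x : S) (ξ : ι → ℂ) : (D.gp u x ξ ξ).re = D.levi u x ξ := by
  simp only [levi_coord hu, gp_eq, re_sum]

theorem gp_self (hu : D.Sm u) (x : S) (ξ : ι → ℂ) : D.gp u x ξ ξ = D.levi u x ξ := by
  rw [← gp_re hu]
  exact (conj_eq_iff_re.1 (gp_conj hu x ξ ξ)).symm

theorem gp_sm (hu : D.Sm u) (hW : ∀ j, D.Sm fun x => W x j) (hX : ∀ j, D.Sm fun x => X x j) :
    D.Sm fun x => D.gp u x (W x) (X x) := by
  simp only [gp_eq]
  exact sm_sum _ fun j _ => sm_sum _ fun k _ =>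
    (((hu.ofReal.op I k).op _ j).mul (hW j)).mul (hX k).conj

theorem lv_sm (hu : D.Sm u) (hW : ∀ j, D.Sm fun x => W x j) : D.Sm fun x => D.levi u x (W x) :=
  levi_sm hu hW

/-- `∂̄ (W u)` for a holomorphic field `W` -/
theorem dbar_gp (hW : ∀ j, D.Hol fun x => W x j) (hu : D.Sm u) (x : S) (ζ : ι → ℂ) :
    D.dbar (D.vr W u) x ζ = D.gp u x (W x) ζ := by
  rw [dbar_coord, gp]
  refine Finset.sum_congr rfl fun k _ => ?_
  have e : D.op I k (D.vr W u) x =
      ∑ j, D.op I k (fun y => W y j * D.op (-I) j (fun y => (u y : ℂ)) y) x :=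
    op_sum I k _ (fun j _ => (hW j).sm.mul (hu.ofReal.op _ j)) x
  rw [e]
  refine congrArg (· * _) (Finset.sum_congr rfl fun j _ => ?_)
  rw [op_mul I k (hW j).sm (hu.ofReal.op _ j), hol_op (hW j), op_comm I k (-I) j hu.ofReal, gm]
  ring

theorem vd_gp (W : S → ι → ℂ) (hX : ∀ j, D.Hol fun x => X x j) (hu : D.Sm u) (x : S) :
    D.vd W (fun y => conj (D.vr X u y)) x = D.gp u x (W x) (X x) := by
  rw [vd_conj W (vr_sm (fun j => (hX j).sm) hu), dbar_gp hX hu, gp_conj hu]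

theorem gp_comp (W X : S → ι → ℂ) {χ : ℝ → ℝ} (hχ : ContDiff ℝ ∞ χ) (hu : D.Sm u) (x : S) :
    D.gp (fun y => χ (u y)) x (W x) (X x) = (deriv χ (u x) : ℝ) * D.gp u x (W x) (X x) +
      (deriv (deriv χ) (u x) : ℝ) * (D.vr W u x * conj (D.vr X u x)) := by
  have h1 : ContDiff ℝ ∞ (deriv χ) := (contDiff_infty_iff_deriv.1 hχ).2
  have e : ∀ k, (D.op I k fun y => (χ (u y) : ℂ)) =
      fun y => (deriv χ (u y) : ℝ) * D.op I k (fun y => (u y : ℂ)) y := fun k =>
    funext (op_real I k hχ hu)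
  simp only [gp_eq, vr, vd, e, op_mul _ _ (hu.comp h1).ofReal (hu.ofReal.op I _),
    op_real _ _ h1 hu, map_sum, map_mul, conj_op hu, map_neg, conj_I, neg_neg, Finset.sum_mul_sum]
  simp only [Finset.mul_sum, ← Finset.sum_add_distrib]
  exact Finset.sum_congr rfl fun j _ => Finset.sum_congr rfl fun k _ => by ring

/-- a divergence free field integrates test functions to zero -/
theorem int_vd (hφ : D.Sm φ) (hW : ∀ j, D.Sm fun x => W x j)
    (hd : ∀ x, D.dv W x = D.vd W (fun y => (φ y : ℂ)) x) (ha : D.Sm a) (hc : HasCompactSupport a) :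
    ∫ x, D.vd W a x * (Real.exp (-φ x) : ℂ) ∂D.μ = 0 := by
  have s : ∀ j, D.Sm fun x => W x j * a x * (Real.exp (-φ x) : ℂ) := fun j =>
    ((hW j).mul ha).mul hφ.wt
  have c : ∀ j, HasCompactSupport fun x => W x j * a x * (Real.exp (-φ x) : ℂ) := fun j =>
    hc.mul_left.mul_right
  have e : ∀ x, D.vd W a x * (Real.exp (-φ x) : ℂ) =
      ∑ j, D.op (-I) j (fun x => W x j * a x * (Real.exp (-φ x) : ℂ)) x := fun x => by
    have : ∀ j, D.op (-I) j (fun x => W x j * a x * (Real.exp (-φ x) : ℂ)) x =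
        (D.op (-I) j (fun y => W y j) x - W x j * D.op (-I) j (fun y => (φ y : ℂ)) x) *
          (a x * (Real.exp (-φ x) : ℂ)) + W x j * D.op (-I) j a x * (Real.exp (-φ x) : ℂ) :=
      fun j => by
        rw [op_mul _ j ((hW j).mul ha) hφ.wt, op_mul _ j (hW j) ha, op_wt _ j hφ]
        ring
    have h := hd x
    rw [dv, vd] at h
    simp only [this, Finset.sum_add_distrib, ← Finset.sum_mul, Finset.sum_sub_distrib, h, vd,
      sub_self, zero_mul, zero_add]
  simp only [e]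
  rw [integral_finsetSum _ fun j _ => ((s j).op _ j).int (op_supp _ j (c j))]
  exact Finset.sum_eq_zero fun j _ => op_int _ j (s j) (c j)

end Bo

/-- the weight is flat along the field -/
theorem Fl.flat (hφ : D.Sm φ) (h : D.Fl φ W) (x : S) (ζ : ι → ℂ) : D.gp φ x (W x) ζ = 0 := by
  rw [← Bo.dbar_gp h.hol hφ, show D.vr W φ = fun y => ∑ j, D.op (-I) j (fun y => W y j) y from
    funext fun y => (h.div y).symm, dbar_coord]
  refine Finset.sum_eq_zero fun k _ => ?_
  rw [op_sum I k _ fun j _ => (h.sm j).op _ j, Finset.sum_eq_zero, zero_mul]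
  intro j _
  rw [op_comm I k (-I) j (h.sm j), show D.op I k (fun y => W y j) = fun _ => 0 from
    funext (Bo.hol_op (h.hol j) k), op_const]

/-- harmonic fields of a complete metric -/
theorem HH.fl (hc : D.Cut Φ) (h : D.HH Φ φ W) (h0 : ∀ x ξ, 0 ≤ D.levi Φ x ξ) : D.Fl φ W := by
  refine ⟨Bo.hol_apply h.hol, h.div, fun K hK θ θ0 => ?_⟩
  set N := ∫ x, D.levi Φ x (W x) * Real.exp (-φ x) ∂D.μ with hN
  have N0 : 0 ≤ N := integral_nonneg fun x => mul_nonneg (h0 _ _) (Real.exp_pos _).le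
  obtain ⟨η, η1, η2, η3, η4, η5⟩ := hc K hK (θ / (N + 1)) (by positivity)
  refine ⟨η, η1, η2, η3, η4, le_trans (integral_mono_of_nonneg (.of_forall fun x => by positivity)
    (h.l2.2.const_mul (θ / (N + 1))) (.of_forall fun x => ?_)) ?_⟩
  · have := η5 x (W x)
    rw [Bo.dbar_vr W η1, norm_conj] at this
    simp only [← mul_assoc]
    exact mul_le_mul_of_nonneg_right this (Real.exp_pos _).le
  · rw [integral_const_mul, ← hN, div_mul_eq_mul_div, div_le_iff₀ (by positivity)]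
    nlinarith

end RD

end

end Pool.Agent.Lib.MP_5c318e_ag
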